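import Mathlib

/-!
# STC: there are countably many locally constant functions on the Cantor set

A locally constant function on the compact space `ℕ → Bool` depends on the first `n` letters only,
for some `n`; there are countably many functions `(Fin n → Bool) → G`. Or: it is determined by the
finite set of pairs (fibre, value), and there are countably many clopen sets in a second countable
compact space (`TopologicalSpace.Clopens`).
-/

set_option autoImplicit false

namespace Pool.Agent.STC

theorem countable_locallyConstant (G : Type*) [Countable G] :
    Countable (LocallyConstant (ℕ → Bool) G) := by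
  classical
  have hc : Countable (TopologicalSpace.Clopens (ℕ → Bool)) :=
    TopologicalSpace.Clopens.countable_iff_secondCountable.2 inferInstance
  let Φ : LocallyConstant (ℕ → Bool) G → Finset (G × TopologicalSpace.Clopens (ℕ → Bool)) :=
    fun f => (f.range_finite.toFinset).image (fun g => (g, ⟨f ⁻¹' {g}, f.isLocallyConstant.isClopen_fiber g⟩))
  have hΦ : Function.Injective Φ := by
    intro f f' hff
    ext x
    have h1 : (f x, (⟨f ⁻¹' {f x}, f.isLocallyConstant.isClopen_fiber (f x)⟩ :
        TopologicalSpace.Clopens (ℕ → Bool))) ∈ Φ f := by
      rw [Finset.mem_image]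
      exact ⟨f x, by simp, rfl⟩
    rw [hff, Finset.mem_image] at h1
    obtain ⟨g, _, hg⟩ := h1
    rw [Prod.mk.injEq] at hg
    obtain ⟨hg1, hg2⟩ := hg
    have h2 : f' ⁻¹' {g} = f ⁻¹' {f x} := congrArg TopologicalSpace.Clopens.carrier hg2
    have h3 : x ∈ f ⁻¹' {f x} := rfl
    rw [← h2] at h3
    have h4 : f' x = g := h3
    rw [h4, hg1]
  exact hΦ.countable

end Pool.Agent.STC
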