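import Pool.Agent.STC.Env

/-!
# STC B11: the environment of the locally constant functions on the Cantor set

`Ω = ℕ → Bool` with the fair coin measure `Measure.infinitePi (fun _ => uniform)`; `ev ω` is
evaluation at `ω`, `cst = LocallyConstant.const`, `ξ v ω = fun j : Fin k => ω (v * k + j)`,
`e v = ⟨fun ω => u (ξ v ω), _⟩`.
* Measurability: preimages under locally constant functions are clopen, open sets of `ℕ → Bool` are
  measurable (`Pi.opensMeasurableSpace`).
* `law`: `{ω | ∀ v ∈ s, ξ v ω = z v}` fixes the values of `ω` at the `k * s.card` different places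
  `v * k + j` (`v ∈ s`, `j < k`); its probability is `(1/2) ^ (k * s.card)`
  (`Measure.infinitePi_pi` or similar).
-/

set_option autoImplicit false

namespace Pool.Agent.STC

open MeasureTheory

/-- the fair coin -/
private noncomputable def coin : Measure Bool := (PMF.uniformOfFintype Bool).toMeasure

private instance : IsProbabilityMeasure coin := by unfold coin; infer_instance

private theorem coin_singleton (b : Bool) : coin {b} = 1 / 2 := by
  unfold coin
  rw [PMF.toMeasure_apply_singleton _ _ (measurableSet_singleton b), PMF.uniformOfFintype_apply]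
  simp

/-- blocks -/
private def blk (k v : ℕ) (ω : ℕ → Bool) : Fin k → Bool := fun j => ω (v * k + j)

private theorem measurable_blk (k v : ℕ) : Measurable (blk k v) :=
  measurable_pi_lambda _ fun _ => measurable_pi_apply _

private theorem continuous_blk (k v : ℕ) : Continuous (blk k v) :=
  continuous_pi fun _ => continuous_apply _

private theorem law_blk (k : ℕ) (s : Finset ℕ) (z : ℕ → Fin k → Bool) :
    (Measure.infinitePi fun _ : ℕ => coin).real {ω | ∀ v ∈ s, blk k v ω = z v} =
      (1 / 2 ^ k) ^ s.card := by
  classical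
  rcases Nat.eq_zero_or_pos k with hk | hk
  · subst hk
    have : {ω : ℕ → Bool | ∀ v ∈ s, blk 0 v ω = z v} = Set.univ := by
      ext ω
      simp only [Set.mem_setOf_eq, Set.mem_univ, iff_true]
      intro v _
      exact Subsingleton.elim _ _
    rw [this]
    simp
  set T : Finset ℕ := (s ×ˢ (Finset.univ : Finset (Fin k))).image (fun p => p.1 * k + p.2) with hT
  set A : ℕ → Set Bool := fun i => {z (i / k) ⟨i % k, Nat.mod_lt _ hk⟩} with hA
  have hdiv : ∀ (v : ℕ) (j : Fin k), (v * k + j) / k = v := by
    intro v j
    rw [mul_comm, Nat.mul_add_div hk, Nat.div_eq_of_lt j.2, add_zero]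
  have hmod : ∀ (v : ℕ) (j : Fin k), (v * k + j) % k = j := by
    intro v j
    rw [mul_comm, Nat.mul_add_mod, Nat.mod_eq_of_lt j.2]
  have hAv : ∀ (v : ℕ) (j : Fin k), A (v * k + j) = {z v j} := by
    intro v j
    rw [hA]
    simp only [hdiv, hmod]
  have hset : {ω : ℕ → Bool | ∀ v ∈ s, blk k v ω = z v} = Set.pi (T : Set ℕ) A := by
    ext ω
    simp only [Set.mem_setOf_eq, Set.mem_pi, Finset.mem_coe]
    constructor
    · intro h i hi
      rw [hT, Finset.mem_image] at hi
      obtain ⟨⟨v, j⟩, hvj, rfl⟩ := hi
      rw [Finset.mem_product] at hvj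
      simp only
      rw [hAv, Set.mem_singleton_iff]
      exact congrFun (h v hvj.1) j
    · intro h v hv
      funext j
      have h1 := h (v * k + j) (by
        rw [hT, Finset.mem_image]
        exact ⟨(v, j), Finset.mem_product.mpr ⟨hv, Finset.mem_univ _⟩, rfl⟩)
      rw [hAv, Set.mem_singleton_iff] at h1
      exact h1
  have hTcard : T.card = s.card * k := by
    rw [hT, Finset.card_image_of_injOn, Finset.card_product, Finset.card_univ, Fintype.card_fin]
    rintro ⟨v, j⟩ _ ⟨v', j'⟩ _ h
    simp only at h
    have h1 : v = v' := by rw [← hdiv v j, ← hdiv v' j', h]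
    have h2 : (j : ℕ) = j' := by rw [← hmod v j, ← hmod v' j', h]
    exact Prod.ext h1 (Fin.ext h2)
  rw [hset, measureReal_def, Measure.infinitePi_pi _ (fun i _ => (measurableSet_singleton _))]
  have h3 : ∀ i ∈ T, coin (A i) = 1 / 2 := fun i _ => coin_singleton _
  rw [Finset.prod_congr rfl h3, Finset.prod_const, hTcard]
  rw [ENNReal.toReal_pow, ENNReal.toReal_div]
  simp only [ENNReal.toReal_one, ENNReal.toReal_ofNat]
  rw [mul_comm s.card k, pow_mul, one_div_pow]

theorem exists_env {G : Type*} [Group G] (k : ℕ) (u : (Fin k → Bool) → G) :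
    Nonempty (Env k u (LocallyConstant (ℕ → Bool) G) (ℕ → Bool)) :=
  ⟨{ P := Measure.infinitePi fun _ : ℕ => coin
     prob := inferInstance
     ev := fun ω =>
      { toFun := fun f => f ω
        map_one' := rfl
        map_mul' := fun _ _ => rfl }
     meas := fun x B => (x.isLocallyConstant B).measurableSet
     cst := fun g => LocallyConstant.const _ g
     ev_cst := fun _ _ => rfl
     ξ := fun v ω => blk k v ω
     meas_ξ := fun v b => measurable_blk k v (measurableSet_singleton b)
     e := fun v => ⟨fun ω => u (blk k v ω),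
      ((IsLocallyConstant.iff_continuous _).mpr (continuous_blk k v)).comp u⟩
     ev_e := fun _ _ => rfl
     law := fun s z => law_blk k s z }⟩

end Pool.Agent.STC
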