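import Mathlib

/-!
# STC B8: a colour class which can be translated to a syndetic set

Write `Emb S A` for: every finite subset `L` of `S` has some `h` with `l * h ∈ A` for all `l ∈ L`.
Claim, by induction on the finset `I`: if for every finite `L` some `h` has
`∀ l ∈ L, ∃ i ∈ I, l * h ∈ A i` (thick cover), then some `i ∈ I` and some syndetic `S`
(`∃ F finite, ∀ g, ∃ f ∈ F, f * g ∈ S`) have `Emb S (A i)`.
`I = ∅` is impossible (`L = {1}`). Step `I = insert i₀ I'`: if `I'` is a thick cover use induction.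
Otherwise there is a finite `F` with: for every `h` some `f ∈ F` has `f * h ∉ A i` for all `i ∈ I'`.
For every finite `L` choose `h L` with `∀ l ∈ L, ∃ i ∈ I, l * h L ∈ A i`; let `U` be an ultrafilter on
`Finset 𝔾` finer than `Filter.atTop`, and `S = {x | ∀ᶠ L in U, x * h L ∈ A i₀}`. Given `g`: for `L`
containing all `f * g`, `f ∈ F`, there is (apply the property of `F` to `g * h L`) `f ∈ F` with
`f * (g * h L) ∉ A i` for all `i ∈ I'`, hence `f * g * h L ∈ A i₀`; as `F` is finite and `U` is an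
ultrafilter, one `f ∈ F` works for `U`-most `L`, so `f * g ∈ S`. `Emb S (A i₀)`: finitely many
conditions hold for `U`-most `L`.
Finally `Emb S (A i)` and `∀ s ∈ A i, ∀ r ∈ R i, r * s ∉ A i` give `r * s ∉ S` for `s ∈ S`, `r ∈ R i`:
otherwise take `L = {s, r * s}`; `s * h ∈ A i` and `r * (s * h) ∈ A i`.
-/

set_option autoImplicit false

namespace Pool.Agent.STC

theorem col_main {𝔾 ι : Type*} [Group 𝔾] [DecidableEq ι] (A : ι → Set 𝔾) (I : Finset ι) :
    (∀ L : Finset 𝔾, ∃ h : 𝔾, ∀ l ∈ L, ∃ i ∈ I, l * h ∈ A i) →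
    ∃ i ∈ I, ∃ (S : Set 𝔾) (F : Finset 𝔾), (∀ g, ∃ f ∈ F, f * g ∈ S) ∧
      ∀ L : Finset 𝔾, (∀ l ∈ L, l ∈ S) → ∃ h : 𝔾, ∀ l ∈ L, l * h ∈ A i := by
  classical
  induction I using Finset.induction_on with
  | empty =>
    intro h
    obtain ⟨x, hx⟩ := h {1}
    obtain ⟨i, hi, _⟩ := hx 1 (Finset.mem_singleton_self 1)
    simp at hi
  | insert i₀ I' hi₀ ih =>
    intro h
    by_cases hc : ∀ L : Finset 𝔾, ∃ h : 𝔾, ∀ l ∈ L, ∃ i ∈ I', l * h ∈ A i
    · obtain ⟨i, hi, S, F, h1, h2⟩ := ih hc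
      exact ⟨i, Finset.mem_insert_of_mem hi, S, F, h1, h2⟩
    · push Not at hc
      obtain ⟨F, hF⟩ := hc
      choose x hx using h
      let U : Ultrafilter (Finset 𝔾) := Ultrafilter.of Filter.atTop
      have hU : (U : Filter (Finset 𝔾)) ≤ Filter.atTop := Ultrafilter.of_le Filter.atTop
      refine ⟨i₀, Finset.mem_insert_self _ _, {y | ∀ᶠ L in (U : Filter (Finset 𝔾)), y * x L ∈ A i₀},
        F, ?_, ?_⟩
      · intro g
        have h1 : ∀ᶠ L in (U : Filter (Finset 𝔾)), ∃ f ∈ F, f * g * x L ∈ A i₀ := by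
          have h2 : ∀ᶠ L in (U : Filter (Finset 𝔾)), F.image (fun f => f * g) ≤ L :=
            hU (Filter.eventually_ge_atTop _)
          filter_upwards [h2] with L hL
          obtain ⟨f, hf, hf2⟩ := hF (g * x L)
          have h3 : f * g ∈ L := hL (Finset.mem_image_of_mem (fun f => f * g) hf)
          obtain ⟨i, hi, hi2⟩ := hx L (f * g) h3
          rw [Finset.mem_insert] at hi
          rcases hi with hi | hi
          · exact ⟨f, hf, hi ▸ hi2⟩
          · exact absurd (by rwa [mul_assoc] at hi2) (hf2 i hi)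
        have h2 : (⋃ f ∈ (F : Set 𝔾), {L | f * g * x L ∈ A i₀}) ∈ U := by
          refine Filter.mem_of_superset h1 ?_
          rintro L ⟨f, hf, hf2⟩
          simp only [Set.mem_iUnion]
          exact ⟨f, hf, hf2⟩
        rw [Ultrafilter.finite_biUnion_mem_iff F.finite_toSet] at h2
        obtain ⟨f, hf, hf2⟩ := h2
        exact ⟨f, hf, hf2⟩
      · intro L hL
        have h1 : ∀ᶠ K in (U : Filter (Finset 𝔾)), ∀ l ∈ L, l * x K ∈ A i₀ :=
          (Filter.eventually_all_finset L).2 hL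
        obtain ⟨K, hK⟩ := h1.exists
        exact ⟨x K, hK⟩

theorem exists_syndetic {𝔾 ι : Type*} [Group 𝔾] [Finite ι] (A R : ι → Set 𝔾)
    (hcov : ∀ x, ∃ i, x ∈ A i) (hR : ∀ i, ∀ s ∈ A i, ∀ r ∈ R i, r * s ∉ A i) :
    ∃ (i : ι) (S : Set 𝔾) (F : Finset 𝔾), (∀ g, ∃ f ∈ F, f * g ∈ S) ∧
      ∀ s ∈ S, ∀ r ∈ R i, r * s ∉ S := by
  classical
  have := Fintype.ofFinite ι
  obtain ⟨i, _, S, F, h1, h2⟩ := col_main A Finset.univ (fun L => ⟨1, fun l _ => by
    obtain ⟨i, hi⟩ := hcov (l * 1)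
    exact ⟨i, Finset.mem_univ i, hi⟩⟩)
  refine ⟨i, S, F, h1, fun s hs r hr hrs => ?_⟩
  obtain ⟨x, hx⟩ := h2 {s, r * s} (by
    intro l hl
    rw [Finset.mem_insert, Finset.mem_singleton] at hl
    rcases hl with hl | hl
    · exact hl ▸ hs
    · exact hl ▸ hrs)
  have e1 := hx s (Finset.mem_insert_self _ _)
  have e2 := hx (r * s) (Finset.mem_insert_of_mem (Finset.mem_singleton_self _))
  rw [mul_assoc] at e2
  exact hR i (s * x) e1 r hr e2

end Pool.Agent.STC
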