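import Mathlib

/-!
# STC B6: a graph with bounded degrees and bounded matching number has few edges

Take a matching `M ⊆ E` of maximal size; it has at most `T` elements. Let `U` be the set of its
endpoints, `|U| ≤ 2 T`. Every `p ∈ E` has `p.1 ∈ U` or `p.2 ∈ U` (otherwise the matching can be
extended, using `p.1 ≠ p.2`). So `E ⊆ ⋃_{x ∈ U} ({p ∈ E | p.1 = x} ∪ {p ∈ E | p.2 = x})`, and each
of these sets has at most `T` elements.
-/

set_option autoImplicit false

namespace Pool.Agent.STC

/-- the edges of `M` have pairwise distinct endpoints -/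
def IsMat (M : Finset (ℕ × ℕ)) : Prop :=
  (∀ p ∈ M, ∀ q ∈ M, p.1 = q.1 → p = q) ∧ (∀ p ∈ M, ∀ q ∈ M, p.2 = q.2 → p = q) ∧
    ∀ p ∈ M, ∀ q ∈ M, p.1 ≠ q.2

theorem card_le_of_deg {r : ℕ → ℕ → Prop} (hirr : ∀ v, ¬ r v v) {T : ℕ}
    (hout : ∀ (v : ℕ) (W : Finset ℕ), (∀ w ∈ W, r v w) → W.card ≤ T)
    (hin : ∀ (w : ℕ) (V : Finset ℕ), (∀ v ∈ V, r v w) → V.card ≤ T)
    (hmat : ∀ (t : ℕ) (v w : Fin t → ℕ), Function.Injective (Sum.elim v w) →
      (∀ j, r (v j) (w j)) → t ≤ T)
    (E : Finset (ℕ × ℕ)) (hE : ∀ p ∈ E, r p.1 p.2) : E.card ≤ 4 * T ^ 2 := by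
  classical
  have hne : (E.powerset.filter IsMat).Nonempty := by
    refine ⟨∅, Finset.mem_filter.mpr ⟨Finset.empty_mem_powerset _, ?_, ?_, ?_⟩⟩ <;>
      · intro p hp
        exact absurd hp (Finset.notMem_empty p)
  obtain ⟨M, hM, hmax⟩ := Finset.exists_max_image (E.powerset.filter IsMat) Finset.card hne
  rw [Finset.mem_filter, Finset.mem_powerset] at hM
  obtain ⟨hME, h1, h2, h3⟩ := hM
  have hMT : M.card ≤ T := by
    have e := M.equivFin
    apply hmat M.card (fun j => (e.symm j).1.1) (fun j => (e.symm j).1.2)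
    · rintro (i | i) (j | j) hij
      · have := h1 _ (e.symm i).2 _ (e.symm j).2 hij
        rw [e.symm.injective (Subtype.ext this)]
      · exact absurd hij (h3 _ (e.symm i).2 _ (e.symm j).2)
      · exact absurd hij.symm (h3 _ (e.symm j).2 _ (e.symm i).2)
      · have := h2 _ (e.symm i).2 _ (e.symm j).2 hij
        rw [e.symm.injective (Subtype.ext this)]
    · intro j
      exact hE _ (hME (e.symm j).2)
  set U : Finset ℕ := M.image Prod.fst ∪ M.image Prod.snd with hU
  have hUc : U.card ≤ 2 * T := by
    calc U.card ≤ (M.image Prod.fst).card + (M.image Prod.snd).card := Finset.card_union_le _ _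
      _ ≤ M.card + M.card := Nat.add_le_add Finset.card_image_le Finset.card_image_le
      _ ≤ 2 * T := by omega
  have hcov : ∀ p ∈ E, p.1 ∈ U ∨ p.2 ∈ U := by
    intro p hp
    by_contra hcon
    push Not at hcon
    obtain ⟨hc1, hc2⟩ := hcon
    have a1 : ∀ q ∈ M, q.1 ∈ U := fun q hq =>
      Finset.mem_union_left _ (Finset.mem_image_of_mem _ hq)
    have a2 : ∀ q ∈ M, q.2 ∈ U := fun q hq =>
      Finset.mem_union_right _ (Finset.mem_image_of_mem _ hq)
    have hpM : p ∉ M := fun h => hc1 (a1 p h)
    have hpp : p.1 ≠ p.2 := by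
      intro h
      have := hE p hp
      rw [← h] at this
      exact hirr _ this
    have hins : IsMat (insert p M) := by
      refine ⟨?_, ?_, ?_⟩
      · intro q hq q' hq' he
        rcases Finset.mem_insert.mp hq with rfl | hq0
        · rcases Finset.mem_insert.mp hq' with rfl | hq0'
          · rfl
          · exact absurd (he ▸ a1 q' hq0') hc1
        · rcases Finset.mem_insert.mp hq' with rfl | hq0'
          · exact absurd (he ▸ a1 q hq0) hc1
          · exact h1 q hq0 q' hq0' he
      · intro q hq q' hq' he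
        rcases Finset.mem_insert.mp hq with rfl | hq0
        · rcases Finset.mem_insert.mp hq' with rfl | hq0'
          · rfl
          · exact absurd (he ▸ a2 q' hq0') hc2
        · rcases Finset.mem_insert.mp hq' with rfl | hq0'
          · exact absurd (he ▸ a2 q hq0) hc2
          · exact h2 q hq0 q' hq0' he
      · intro q hq q' hq' he
        rcases Finset.mem_insert.mp hq with rfl | hq0
        · rcases Finset.mem_insert.mp hq' with rfl | hq0'
          · exact hpp he
          · exact absurd (he ▸ a2 q' hq0') hc1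
        · rcases Finset.mem_insert.mp hq' with rfl | hq0'
          · exact absurd (he ▸ a1 q hq0) hc2
          · exact h3 q hq0 q' hq0' he
    have := hmax (insert p M) (Finset.mem_filter.mpr ⟨Finset.mem_powerset.mpr
      (Finset.insert_subset hp hME), hins⟩)
    rw [Finset.card_insert_of_notMem hpM] at this
    omega
  have hdeg : ∀ x : ℕ, (E.filter fun p => p.1 = x ∨ p.2 = x).card ≤ 2 * T := by
    intro x
    have b1 : (E.filter fun p => p.1 = x).card ≤ T := by
      have : (E.filter fun p => p.1 = x).card
          = ((E.filter fun p => p.1 = x).image Prod.snd).card := by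
        rw [Finset.card_image_of_injOn]
        intro p hp q hq he
        rw [Finset.mem_coe, Finset.mem_filter] at hp hq
        exact Prod.ext (hp.2.trans hq.2.symm) he
      rw [this]
      apply hout x
      intro w hw
      obtain ⟨p, hp, rfl⟩ := Finset.mem_image.mp hw
      rw [Finset.mem_filter] at hp
      rw [← hp.2]
      exact hE p hp.1
    have b2 : (E.filter fun p => p.2 = x).card ≤ T := by
      have : (E.filter fun p => p.2 = x).card
          = ((E.filter fun p => p.2 = x).image Prod.fst).card := by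
        rw [Finset.card_image_of_injOn]
        intro p hp q hq he
        rw [Finset.mem_coe, Finset.mem_filter] at hp hq
        exact Prod.ext he (hp.2.trans hq.2.symm)
      rw [this]
      apply hin x
      intro w hw
      obtain ⟨p, hp, rfl⟩ := Finset.mem_image.mp hw
      rw [Finset.mem_filter] at hp
      rw [← hp.2]
      exact hE p hp.1
    rw [Finset.filter_or]
    exact (Finset.card_union_le _ _).trans (by omega)
  have hsub : E ⊆ U.biUnion fun x => E.filter fun p => p.1 = x ∨ p.2 = x := by
    intro p hp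
    rw [Finset.mem_biUnion]
    rcases hcov p hp with h | h
    · exact ⟨_, h, Finset.mem_filter.mpr ⟨hp, Or.inl rfl⟩⟩
    · exact ⟨_, h, Finset.mem_filter.mpr ⟨hp, Or.inr rfl⟩⟩
  calc E.card ≤ (U.biUnion fun x => E.filter fun p => p.1 = x ∨ p.2 = x).card :=
        Finset.card_le_card hsub
    _ ≤ U.card * (2 * T) := Finset.card_biUnion_le_card_mul _ _ _ fun x _ => hdeg x
    _ ≤ (2 * T) * (2 * T) := Nat.mul_le_mul_right _ hUc
    _ = 4 * T ^ 2 := by ring

end Pool.Agent.STC
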