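import Mathlib

/-!
# STC B7: greedy colouring of a countable graph of bounded degree

Greedy colouring along an injection `X → ℕ` (strong recursion): `c x` is a colour not used by the
neighbours of `x` which come earlier.
-/

set_option autoImplicit false

namespace Pool.Agent.STC

theorem exists_coloring {X : Type*} [Countable X] (r : X → X → Prop)
    (hsymm : ∀ x y, r x y → r y x) (hirr : ∀ x, ¬ r x x) {Δ : ℕ}
    (hdeg : ∀ (x : X) (Y : Finset X), (∀ y ∈ Y, r x y) → Y.card ≤ Δ) :
    ∃ c : X → Fin (Δ + 1), ∀ x y, r x y → c x ≠ c y := by
  classical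
  obtain ⟨g, hg⟩ := exists_injective_nat X
  -- the step: a colour avoiding the earlier neighbours
  have step : ∀ (x : X) (c : ∀ y : X, g y < g x → Fin (Δ + 1)),
      ∃ a : Fin (Δ + 1), ∀ (y : X) (hy : g y < g x), r x y → c y hy ≠ a := by
    intro x c
    by_contra hcon
    push Not at hcon
    choose y hy hr hc using hcon
    have hinj : Function.Injective y := by
      intro a b hab
      rw [← hc a, ← hc b]
      congr 1
    have h1 := hdeg x (Finset.univ.image y) (by
      intro z hz
      obtain ⟨a, _, rfl⟩ := Finset.mem_image.mp hz
      exact hr a)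
    rw [Finset.card_image_of_injective _ hinj, Finset.card_univ, Fintype.card_fin] at h1
    omega
  choose F hF using step
  have wf : WellFounded fun y x : X => g y < g x := InvImage.wf g Nat.lt_wfRel.wf
  let c : X → Fin (Δ + 1) := wf.fix (C := fun _ => Fin (Δ + 1)) fun x ih => F x ih
  have hc : ∀ x, c x = F x fun y _ => c y := fun x => wf.fix_eq _ x
  refine ⟨c, fun x y hxy he => ?_⟩
  rcases lt_trichotomy (g x) (g y) with h | h | h
  · have := hF y (fun z _ => c z) x h (hsymm x y hxy)
    rw [← hc y] at this
    exact this he
  · have := hg h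
    subst this
    exact hirr _ hxy
  · have := hF x (fun z _ => c z) y h hxy
    rw [← hc x] at this
    exact this he.symm

end Pool.Agent.STC
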