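import Pool.Agent.STC.Env

/-!
# STC: `e` is injective, `S` is syndetic

* `inj_e`: if `e v = e w` with `v ≠ w` then `u (ξ v ω) = u (ξ w ω)` for all `ω`; by `law` for
  `{v, w}` all pairs of letters occur, so `u` is constant, say `u b = g₀`. By `Good.rare` (all or no
  letters `b` count) `g₀⁻¹ * g ∉ A` for all `g`, so `A = ∅`, against `Good.dense` for `β = 1/2`.
* `syndetic`: `Good.dense` for `β = 1/(4N)`: `(V, p)`. For `y : 𝔾`,
  `∑_{f ∈ V} p f * P {ω | f⁻¹ * ev ω y ∈ A} = ∫ mass V p {f | f⁻¹ * ev ω y ∈ A} dP ≥ 1 - β = thr k`, so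
  some `f ∈ V` has `P {ω | ev ω ((cst f)⁻¹ * y) ∈ A} ≥ thr k`.
-/

set_option autoImplicit false

namespace Pool.Agent.STC

open MeasureTheory

variable {G : Type*} [Group G] {A : Set G} {k : ℕ} {u : (Fin k → Bool) → G} {𝔾 Ω : Type*}
  [Group 𝔾] [MeasurableSpace Ω]

theorem inj_e (E : Env k u 𝔾 Ω) (hg : Good A k u) : Function.Injective E.e := by
  classical
  intro v w hvw
  by_contra hne
  have := E.prob
  have hN : (0 : ℝ) < 2 ^ k := by positivity
  -- all pairs of letters occur
  have hpair : ∀ b b' : Fin k → Bool, u b = u b' := by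
    intro b b'
    have h := E.law {v, w} (fun x => if x = v then b else b')
    have hpos : 0 < E.P.real {ω | ∀ x ∈ ({v, w} : Finset ℕ), E.ξ x ω =
        (fun x => if x = v then b else b') x} := by
      rw [h]
      positivity
    have hne' : ({ω | ∀ x ∈ ({v, w} : Finset ℕ), E.ξ x ω =
        (fun x => if x = v then b else b') x} : Set Ω).Nonempty := by
      by_contra hem
      rw [Set.not_nonempty_iff_eq_empty] at hem
      rw [hem] at hpos
      simp at hpos
    obtain ⟨ω, hω⟩ := hne'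
    have h1 : E.ξ v ω = b := by
      have := hω v (by simp)
      simpa using this
    have h2 : E.ξ w ω = b' := by
      have := hω w (by simp)
      simpa [Ne.symm hne] using this
    have h3 : E.ev ω (E.e v) = E.ev ω (E.e w) := by rw [hvw]
    rw [E.ev_e, E.ev_e, h1, h2] at h3
    exact h3
  -- `A` is empty
  have hA : ∀ g : G, g ∉ A := by
    intro g hgA
    set b0 : Fin k → Bool := fun _ => false
    have h1 := hg.rare (u b0 * g)
    have h2 : (Finset.univ.filter fun b => (u b)⁻¹ * (u b0 * g) ∈ A) =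
        (Finset.univ : Finset (Fin k → Bool)) := by
      refine Finset.filter_true_of_mem fun b _ => ?_
      rw [hpair b b0, inv_mul_cancel_left]
      exact hgA
    rw [h2, Finset.card_univ, Fintype.card_fun, Fintype.card_bool, Fintype.card_fin] at h1
    push_cast at h1
    linarith
  obtain ⟨V, p, hp, hmass⟩ := hg.dense (1 / 2) (by norm_num)
  have h1 := hmass 1
  have h2 : mass V p (fun f => f⁻¹ * 1 ∈ A) = 0 := by
    unfold mass
    rw [Finset.filter_false_of_mem fun f _ => hA _, Finset.sum_empty]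
  rw [h2] at h1
  norm_num at h1

theorem syndetic (E : Env k u 𝔾 Ω) (hg : Good A k u) :
    ∃ V : Finset G, ∀ y : 𝔾, ∃ f ∈ V, (E.cst f)⁻¹ * y ∈ E.S A := by
  classical
  have := E.prob
  obtain ⟨V, p, hp, hmass⟩ := hg.dense (1 / (4 * 2 ^ k)) (by positivity)
  refine ⟨V, fun y => ?_⟩
  by_contra hcon
  push Not at hcon
  have hlt : ∀ f ∈ V, E.P.real {ω | f⁻¹ * E.ev ω y ∈ A} < thr k := by
    intro f hf
    have h1 := hcon f hf
    unfold Env.S at h1
    have h2 : {ω | E.ev ω ((E.cst f)⁻¹ * y) ∈ A} = {ω | f⁻¹ * E.ev ω y ∈ A} := by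
      ext ω
      show E.ev ω ((E.cst f)⁻¹ * y) ∈ A ↔ f⁻¹ * E.ev ω y ∈ A
      rw [map_mul, map_inv, E.ev_cst]
    rw [← h2]
    exact not_le.1 h1
  have hms : ∀ f : G, MeasurableSet {ω | f⁻¹ * E.ev ω y ∈ A} := by
    intro f
    have := E.meas ((E.cst f)⁻¹ * y) A
    have h2 : {ω | E.ev ω ((E.cst f)⁻¹ * y) ∈ A} = {ω | f⁻¹ * E.ev ω y ∈ A} := by
      ext ω
      show E.ev ω ((E.cst f)⁻¹ * y) ∈ A ↔ f⁻¹ * E.ev ω y ∈ A
      rw [map_mul, map_inv, E.ev_cst]
    rwa [h2] at this
  -- the integral of the mass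
  have hint : ∫ ω, mass V p (fun f => f⁻¹ * E.ev ω y ∈ A) ∂E.P =
      ∑ f ∈ V, p f * E.P.real {ω | f⁻¹ * E.ev ω y ∈ A} := by
    have h1 : ∀ ω, mass V p (fun f => f⁻¹ * E.ev ω y ∈ A) =
        ∑ f ∈ V, ({ω | f⁻¹ * E.ev ω y ∈ A} : Set Ω).indicator (fun _ => p f) ω := by
      intro ω
      unfold mass
      rw [Finset.sum_filter]
      refine Finset.sum_congr rfl fun f _ => ?_
      rw [Set.indicator_apply]
      rfl
    rw [integral_congr_ae (Filter.Eventually.of_forall h1), integral_finsetSum]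
    · refine Finset.sum_congr rfl fun f _ => ?_
      rw [integral_indicator_const _ (hms f), smul_eq_mul, mul_comm]
    · intro f _
      exact (integrable_const (p f)).indicator (hms f)
  have hge : thr k ≤ ∫ ω, mass V p (fun f => f⁻¹ * E.ev ω y ∈ A) ∂E.P := by
    have h1 : ∫ _ω, thr k ∂E.P = thr k := by simp
    rw [← h1]
    refine integral_mono (integrable_const _) ?_ fun ω => ?_
    · have h2 : (fun ω => mass V p (fun f => f⁻¹ * E.ev ω y ∈ A)) =
          fun ω => ∑ f ∈ V, ({ω | f⁻¹ * E.ev ω y ∈ A} : Set Ω).indicator (fun _ => p f) ω := by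
        funext ω
        unfold mass
        rw [Finset.sum_filter]
        refine Finset.sum_congr rfl fun f _ => ?_
        rw [Set.indicator_apply]
        rfl
      rw [h2]
      exact integrable_finsetSum _ fun f _ => (integrable_const (p f)).indicator (hms f)
    · unfold thr
      exact hmass (E.ev ω y)
  rw [hint] at hge
  -- some weight is positive
  have hle : ∑ f ∈ V, p f * E.P.real {ω | f⁻¹ * E.ev ω y ∈ A} < ∑ f ∈ V, p f * thr k := by
    have hex : ∃ f ∈ V, 0 < p f := by
      by_contra hno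
      push Not at hno
      have : ∑ f ∈ V, p f ≤ 0 := Finset.sum_nonpos hno
      rw [hp.sum_one] at this
      linarith
    obtain ⟨f, hf, hpf⟩ := hex
    refine Finset.sum_lt_sum (fun i hi => ?_) ⟨f, hf, ?_⟩
    · exact mul_le_mul_of_nonneg_left (hlt i hi).le (hp.nonneg i hi)
    · exact mul_lt_mul_of_pos_left (hlt f hf) hpf
  rw [← Finset.sum_mul, hp.sum_one, one_mul] at hle
  linarith

end Pool.Agent.STC
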