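import Pool.Agent.STC.Emp

/-!
# STC B2: law of large numbers against an adversary

`∑_j 1_{X_j}(ω) ≤ #{j | ζ j ω ∈ B ω} ≤ t (a + dev (ζ · ω))` by `card_le_dev`. Integrate:
`∫ dev (ζ · ω) dP = ∑_z P {ζ = z} dev z = N^{-t} ∑_z dev z ≤ N / √t` by `sum_dev` (the finitely many
events `{ζ = z}` are measurable and partition `Ω`).
-/

set_option autoImplicit false

namespace Pool.Agent.STC

open MeasureTheory

theorem avg {Ω D : Type*} [MeasurableSpace Ω] [Fintype D] [DecidableEq D] (P : Measure Ω)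
    [IsProbabilityMeasure P] {t : ℕ} (ht : 0 < t) (ζ : Fin t → Ω → D)
    (hm : ∀ j b, MeasurableSet {ω | ζ j ω = b})
    (law : ∀ z : Fin t → D, P.real {ω | ∀ j, ζ j ω = z j} = (1 / (Fintype.card D : ℝ)) ^ t)
    (B : Ω → Finset D) {a : ℝ} (hB : ∀ ω, ((B ω).card : ℝ) ≤ a * Fintype.card D)
    (X : Fin t → Set Ω) (hX : ∀ j, MeasurableSet (X j)) (hXB : ∀ j, ∀ ω ∈ X j, ζ j ω ∈ B ω) :
    ∑ j, P.real (X j) ≤ t * (a + (Fintype.card D : ℝ) / Real.sqrt t) := by
  classical
  have ht0 : (0 : ℝ) < t := by exact_mod_cast ht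
  haveI : Nonempty Ω := nonempty_of_isProbabilityMeasure P
  obtain ⟨ω0⟩ := ‹Nonempty Ω›
  have hN : 0 < Fintype.card D := Fintype.card_pos_iff.2 ⟨ζ ⟨0, ht⟩ ω0⟩
  have hN0 : (0 : ℝ) < Fintype.card D := by exact_mod_cast hN
  set E : (Fin t → D) → Set Ω := fun z => {ω | ∀ j, ζ j ω = z j} with hE
  have hEm : ∀ z, MeasurableSet (E z) := by
    intro z
    have : E z = ⋂ j, {ω | ζ j ω = z j} := by
      ext ω
      simp [hE]
    rw [this]
    exact MeasurableSet.iInter fun j => hm j (z j)
  -- both sides as integrals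
  have h1 : ∑ j, P.real (X j) = ∫ ω, ∑ j, (X j).indicator (fun _ => (1 : ℝ)) ω ∂P := by
    rw [integral_finset_sum]
    · refine Finset.sum_congr rfl fun j _ => ?_
      rw [integral_indicator (hX j), setIntegral_const, smul_eq_mul, mul_one]
    · intro j _
      exact (integrable_const (1 : ℝ)).indicator (hX j)
  have hint1 : Integrable (fun ω => ∑ j, (X j).indicator (fun _ => (1 : ℝ)) ω) P :=
    integrable_finset_sum _ fun j _ => (integrable_const (1 : ℝ)).indicator (hX j)
  have hint2 : Integrable (fun ω => ∑ z : Fin t → D,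
      (E z).indicator (fun _ => (t : ℝ) * (a + dev z)) ω) P :=
    integrable_finset_sum _ fun z _ => (integrable_const _).indicator (hEm z)
  have hpt : ∀ ω, ∑ j, (X j).indicator (fun _ => (1 : ℝ)) ω ≤
      ∑ z : Fin t → D, (E z).indicator (fun _ => (t : ℝ) * (a + dev z)) ω := by
    intro ω
    have h2 : ∑ z : Fin t → D, (E z).indicator (fun _ => (t : ℝ) * (a + dev z)) ω =
        t * (a + dev (fun j => ζ j ω)) := by
      rw [Finset.sum_eq_single (fun j => ζ j ω)]
      · exact Set.indicator_of_mem (show ω ∈ E (fun j => ζ j ω) from fun _ => rfl) _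
      · intro z _ hz
        apply Set.indicator_of_notMem
        intro hω
        exact hz (funext fun j => ((hω : ∀ j, ζ j ω = z j) j).symm)
      · intro h
        exact absurd (Finset.mem_univ _) h
    rw [h2]
    have h3 : ∑ j, (X j).indicator (fun _ => (1 : ℝ)) ω ≤
        ((Finset.univ.filter fun j => ζ j ω ∈ B ω).card : ℝ) := by
      rw [Finset.card_filter]
      push_cast
      apply Finset.sum_le_sum
      intro j _
      by_cases hj : ω ∈ X j
      · rw [Set.indicator_of_mem hj, if_pos (hXB j ω hj)]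
      · rw [Set.indicator_of_notMem hj]
        split_ifs <;> norm_num
    have h4 := card_le_dev ht (fun j => ζ j ω) (B ω)
    have h5 : ((B ω).card : ℝ) / Fintype.card D ≤ a := by
      rw [div_le_iff₀ hN0]
      exact hB ω
    calc ∑ j, (X j).indicator (fun _ => (1 : ℝ)) ω
        ≤ ((Finset.univ.filter fun j => ζ j ω ∈ B ω).card : ℝ) := h3
      _ ≤ t * (((B ω).card : ℝ) / Fintype.card D + dev (fun j => ζ j ω)) := h4
      _ ≤ _ := by
          apply mul_le_mul_of_nonneg_left _ ht0.le
          linarith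
  have h6 : ∫ ω, ∑ j, (X j).indicator (fun _ => (1 : ℝ)) ω ∂P ≤
      ∫ ω, ∑ z : Fin t → D, (E z).indicator (fun _ => (t : ℝ) * (a + dev z)) ω ∂P :=
    integral_mono hint1 hint2 hpt
  have h7 : ∫ ω, ∑ z : Fin t → D, (E z).indicator (fun _ => (t : ℝ) * (a + dev z)) ω ∂P =
      ∑ z : Fin t → D, (1 / (Fintype.card D : ℝ)) ^ t * (t * (a + dev z)) := by
    rw [integral_finset_sum]
    · refine Finset.sum_congr rfl fun z _ => ?_
      rw [integral_indicator (hEm z), setIntegral_const, smul_eq_mul, law z]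
    · intro z _
      exact (integrable_const _).indicator (hEm z)
  rw [h1]
  refine h6.trans ?_
  rw [h7]
  have h8 : ∑ z : Fin t → D, (1 / (Fintype.card D : ℝ)) ^ t * (t * (a + dev z)) =
      t * (a + (1 / (Fintype.card D : ℝ)) ^ t * ∑ z : Fin t → D, dev z) := by
    have h9 : ∀ z : Fin t → D, (1 / (Fintype.card D : ℝ)) ^ t * (t * (a + dev z)) =
        (1 / (Fintype.card D : ℝ)) ^ t * (t * a) +
          (1 / (Fintype.card D : ℝ)) ^ t * t * dev z := fun z => by ring
    rw [Finset.sum_congr rfl fun z _ => h9 z, Finset.sum_add_distrib, Finset.sum_const,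
      ← Finset.mul_sum, nsmul_eq_mul, Finset.card_univ, Fintype.card_fun, Fintype.card_fin]
    push_cast
    have h10 : (Fintype.card D : ℝ) ^ t * (1 / (Fintype.card D : ℝ)) ^ t = 1 := by
      rw [← mul_pow]
      have : (Fintype.card D : ℝ) * (1 / (Fintype.card D : ℝ)) = 1 := by field_simp
      rw [this, one_pow]
    rw [← mul_assoc, h10]
    ring
  rw [h8]
  apply mul_le_mul_of_nonneg_left _ ht0.le
  have h11 := mul_le_mul_of_nonneg_left (sum_dev D ht)
    (show 0 ≤ (1 / (Fintype.card D : ℝ)) ^ t by positivity)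
  have h12 : (1 / (Fintype.card D : ℝ)) ^ t *
      ((Fintype.card D : ℝ) ^ t * ((Fintype.card D : ℝ) / Real.sqrt t)) =
      (Fintype.card D : ℝ) / Real.sqrt t := by
    rw [← mul_assoc, ← mul_pow]
    have : 1 / (Fintype.card D : ℝ) * (Fintype.card D : ℝ) = 1 := by field_simp
    rw [this, one_pow, one_mul]
  linarith

end Pool.Agent.STC
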