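import Pool.Agent.STC.Env
import Pool.Agent.STC.Avg

/-!
# STC B5: matching number

`N = 2^k = card D`, `D = Fin k → Bool`, `θ = thr k = 1 - 1/(4N) ≥ 3/4`. Assume `0 < t` and apply `avg`
to the alphabet `D × D` (`N²` elements), `ζ j = (ξ (v j), ξ (w j))`,
`B ω = {(b', b) | (u b)⁻¹ * (u b' * ev ω s) ∈ A}`, which has at most `N * (N/4) = N²/4` elements
(`Good.rare` for every `b'`), `a = 1/4`, `X_j = {ω | ev ω ((e (w j))⁻¹ * e (v j) * s) ∈ A}`:
`θ ≤ 1/4 + N²/√t`, so `√t ≤ 2N²`.

The joint law of the `ζ j` follows from `Env.law` for the image of `Sum.elim v w` (`2t` elements).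
-/

set_option autoImplicit false

namespace Pool.Agent.STC

open MeasureTheory

variable {G : Type*} [Group G] {A : Set G} {k : ℕ} {u : (Fin k → Bool) → G} {𝔾 Ω : Type*}
  [Group 𝔾] [MeasurableSpace Ω]

theorem matching (E : Env k u 𝔾 Ω) (hg : Good A k u) (s : 𝔾) {t : ℕ} (v w : Fin t → ℕ)
    (hvw : Function.Injective (Sum.elim v w))
    (h : ∀ j, (E.e (w j))⁻¹ * E.e (v j) * s ∈ E.S A) : t ≤ 4 * (2 ^ k) ^ 4 := by
  classical
  rcases Nat.eq_zero_or_pos t with rfl | ht
  · exact Nat.zero_le _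
  haveI := E.prob
  have hcardD : Fintype.card ((Fin k → Bool) × (Fin k → Bool)) = (2 ^ k) ^ 2 := by
    rw [Fintype.card_prod, Fintype.card_fun, Fintype.card_bool, Fintype.card_fin, sq]
  have hcardDr : ((Fintype.card ((Fin k → Bool) × (Fin k → Bool)) : ℕ) : ℝ) = ((2:ℝ) ^ k) ^ 2 := by
    rw [hcardD]; push_cast; rfl
  set ζ : Fin t → Ω → (Fin k → Bool) × (Fin k → Bool) := fun j ω => (E.ξ (v j) ω, E.ξ (w j) ω)
    with hζ
  set B : Ω → Finset ((Fin k → Bool) × (Fin k → Bool)) := fun ω =>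
    Finset.univ.filter (fun x => (u x.2)⁻¹ * (u x.1 * E.ev ω s) ∈ A) with hB
  set X : Fin t → Set Ω := fun j => {ω | E.ev ω ((E.e (w j))⁻¹ * E.e (v j) * s) ∈ A} with hX
  have hm : ∀ j b, MeasurableSet {ω | ζ j ω = b} := by
    intro j b
    have : {ω | ζ j ω = b} = {ω | E.ξ (v j) ω = b.1} ∩ {ω | E.ξ (w j) ω = b.2} := by
      ext ω
      simp only [hζ, Set.mem_setOf_eq, Set.mem_inter_iff, Prod.ext_iff]
    rw [this]
    exact (E.meas_ξ _ _).inter (E.meas_ξ _ _)
  have hlaw : ∀ z : Fin t → (Fin k → Bool) × (Fin k → Bool), E.P.real {ω | ∀ j, ζ j ω = z j} =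
      (1 / ((Fintype.card ((Fin k → Bool) × (Fin k → Bool)) : ℕ) : ℝ)) ^ t := by
    intro z
    set g : Fin t ⊕ Fin t → (Fin k → Bool) := Sum.elim (fun j => (z j).1) (fun j => (z j).2) with hgdef
    set zz : ℕ → Fin k → Bool := Function.extend (Sum.elim v w) g (fun _ _ => false) with hzz
    have hval : ∀ x, zz (Sum.elim v w x) = g x := fun x => hvw.extend_apply g _ x
    have h1 := E.law (Finset.univ.image (Sum.elim v w)) zz
    rw [Finset.card_image_of_injective _ hvw] at h1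
    have h2 : (Finset.univ : Finset (Fin t ⊕ Fin t)).card = 2 * t := by
      rw [Finset.card_univ, Fintype.card_sum, Fintype.card_fin]; ring
    rw [h2] at h1
    have h3 : {ω | ∀ x ∈ Finset.univ.image (Sum.elim v w), E.ξ x ω = zz x} =
        {ω | ∀ j, ζ j ω = z j} := by
      ext ω
      simp only [Set.mem_setOf_eq]
      constructor
      · intro h4 j
        have h5 := h4 (v j) (Finset.mem_image.2 ⟨Sum.inl j, Finset.mem_univ _, rfl⟩)
        have h6 := h4 (w j) (Finset.mem_image.2 ⟨Sum.inr j, Finset.mem_univ _, rfl⟩)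
        have h7 := hval (Sum.inl j)
        have h8 := hval (Sum.inr j)
        simp only [Sum.elim_inl, Sum.elim_inr, hgdef] at h7 h8
        rw [hζ]
        simp only
        rw [h5, h6, h7, h8]
      · intro h4 x hx
        obtain ⟨y, _, rfl⟩ := Finset.mem_image.1 hx
        rw [hval]
        rcases y with j | j
        · simp only [Sum.elim_inl, hgdef]
          exact congrArg Prod.fst (h4 j)
        · simp only [Sum.elim_inr, hgdef]
          exact congrArg Prod.snd (h4 j)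
    rw [h3] at h1
    rw [h1, hcardDr, pow_mul, one_div, one_div, inv_pow]
  have hBc : ∀ ω, ((B ω).card : ℝ) ≤
      1 / 4 * ((Fintype.card ((Fin k → Bool) × (Fin k → Bool)) : ℕ) : ℝ) := by
    intro ω
    have h1 : B ω = Finset.univ.biUnion (fun b' : Fin k → Bool =>
        (Finset.univ.filter (fun b : Fin k → Bool => (u b)⁻¹ * (u b' * E.ev ω s) ∈ A)).image
          (fun b => (b', b))) := by
      ext ⟨x, y⟩
      simp only [hB, Finset.mem_filter, Finset.mem_univ, true_and, Finset.mem_biUnion,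
        Finset.mem_image, Prod.mk.injEq]
      constructor
      · intro h; exact ⟨x, y, h, rfl, rfl⟩
      · rintro ⟨b', b, h, rfl, rfl⟩; exact h
    rw [h1, hcardDr]
    calc ((Finset.univ.biUnion (fun b' : Fin k → Bool =>
        (Finset.univ.filter (fun b : Fin k → Bool => (u b)⁻¹ * (u b' * E.ev ω s) ∈ A)).image
          (fun b => (b', b)))).card : ℝ)
        ≤ ((∑ b' : Fin k → Bool,
          ((Finset.univ.filter (fun b : Fin k → Bool => (u b)⁻¹ * (u b' * E.ev ω s) ∈ A)).image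
          (fun b => (b', b))).card : ℕ) : ℝ) := by exact_mod_cast Finset.card_biUnion_le
      _ ≤ ∑ b' : Fin k → Bool, (1 / 4 * (2:ℝ) ^ k) := by
          push_cast
          apply Finset.sum_le_sum
          intro b' _
          refine le_trans ?_ (hg.rare (u b' * E.ev ω s))
          exact_mod_cast Finset.card_image_le
      _ = 1 / 4 * ((2:ℝ) ^ k) ^ 2 := by
          rw [Finset.sum_const, Finset.card_univ, Fintype.card_fun, Fintype.card_bool,
            Fintype.card_fin, nsmul_eq_mul]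
          push_cast
          ring
  have hXm : ∀ j, MeasurableSet (X j) := fun j => E.meas _ _
  have hXB : ∀ j, ∀ ω ∈ X j, ζ j ω ∈ B ω := by
    intro j ω hω
    rw [hX] at hω
    simp only [Set.mem_setOf_eq, map_mul, map_inv, E.ev_e] at hω
    rw [hB]
    simp only [Finset.mem_filter, Finset.mem_univ, true_and, hζ]
    rw [← mul_assoc]
    exact hω
  have hmain := avg E.P ht ζ hm hlaw B hBc X hXm hXB
  have hlow : (t : ℝ) * thr k ≤ ∑ j, E.P.real (X j) := by
    have h1 : ∑ _j : Fin t, thr k ≤ ∑ j, E.P.real (X j) := Finset.sum_le_sum fun j _ => h j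
    rw [Finset.sum_const, Finset.card_univ, Fintype.card_fin, nsmul_eq_mul] at h1
    exact h1
  have htr : (0:ℝ) < t := by exact_mod_cast ht
  have h1 : thr k ≤ 1 / 4 + ((2:ℝ) ^ k) ^ 2 / Real.sqrt t := by
    rw [hcardDr] at hmain
    have := hlow.trans hmain
    exact le_of_mul_le_mul_left this htr
  have h2 : (3:ℝ) / 4 ≤ thr k := by
    unfold thr
    have h3 : (1:ℝ) ≤ 2 ^ k := one_le_pow₀ (by norm_num)
    have h4 : 1 / (4 * (2:ℝ) ^ k) ≤ 1 / 4 := by
      apply one_div_le_one_div_of_le (by norm_num)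
      linarith
    linarith
  have hs : 0 < Real.sqrt t := Real.sqrt_pos.2 htr
  have h3 : Real.sqrt t ≤ 2 * ((2:ℝ) ^ k) ^ 2 := by
    have h4 : (1:ℝ) / 2 ≤ ((2:ℝ) ^ k) ^ 2 / Real.sqrt t := by linarith
    rw [le_div_iff₀ hs] at h4
    linarith
  have h5 : (t : ℝ) ≤ (2 * ((2:ℝ) ^ k) ^ 2) ^ 2 := by
    rw [← Real.sq_sqrt htr.le]
    exact pow_le_pow_left₀ hs.le h3 2
  have h6 : (t : ℝ) ≤ ((4 * (2 ^ k) ^ 4 : ℕ) : ℝ) := by
    push_cast
    calc (t : ℝ) ≤ (2 * ((2:ℝ) ^ k) ^ 2) ^ 2 := h5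
      _ = 4 * ((2:ℝ) ^ k) ^ 4 := by ring
  exact_mod_cast h6

end Pool.Agent.STC
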