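import Pool.Agent.STC.Deg
import Pool.Agent.STC.Match
import Pool.Agent.STC.InjSynd
import Pool.Agent.STC.Graph
import Pool.Agent.STC.Greedy
import Pool.Agent.STC.Col

/-!
# STC: part B

* `degree`: for `s ∈ S` put `r v w :↔ v ≠ w ∧ (e w)⁻¹ * e v * s ∈ S`. By `outdeg` (with
  `y = e v * s`), `indeg` and `matching` the hypotheses of `card_le_of_deg` hold with
  `T = 4 N ^ 4`. A finset `Y` of neighbours of `s`: choose for every `y ∈ Y` a pair `(v, w)`; this is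
  injective. So `Y.card ≤ 4 T ^ 2`.
* `partB`: the relation `x ~ y :↔ ∃ v ≠ w, y = (e w)⁻¹ * e v * x` on the subtype `S` is symmetric
  (exchange `v` and `w`), irreflexive (`e` injective), of degree at most `Δ = 4 T ^ 2`:
  `exists_coloring` gives `c : S → Fin (Δ + 1)`. Colours `ι = V × Fin (Δ + 1)` (`V` from `syndetic`, as
  a subtype), `A (f, i) = {x | ∃ h : (cst f)⁻¹ * x ∈ S, c ⟨_, h⟩ = i}`,
  `R (f, i) = {r | ∃ v ≠ w, r = (a_f w)⁻¹ * a_f v}` with `a_f v = e v * (cst f)⁻¹`; so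
  `r = cst f * ((e w)⁻¹ * e v) * (cst f)⁻¹`. Apply `exists_syndetic`.
-/

set_option autoImplicit false

namespace Pool.Agent.STC

open MeasureTheory

variable {G : Type*} [Group G] {A : Set G} {k : ℕ} {u : (Fin k → Bool) → G} {𝔾 Ω : Type*}
  [Group 𝔾] [MeasurableSpace Ω]

theorem degree (E : Env k u 𝔾 Ω) (hg : Good A k u) {s : 𝔾} (hs : s ∈ E.S A) (Y : Finset 𝔾)
    (hY : ∀ y ∈ Y, y ∈ E.S A ∧ ∃ v w, v ≠ w ∧ y = (E.e w)⁻¹ * E.e v * s) :
    Y.card ≤ 4 * (4 * (2 ^ k) ^ 4) ^ 2 := by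
  classical
  let r : ℕ → ℕ → Prop := fun v w => v ≠ w ∧ (E.e w)⁻¹ * E.e v * s ∈ E.S A
  have hirr : ∀ v, ¬ r v v := fun v h => h.1 rfl
  have hout : ∀ (v : ℕ) (W : Finset ℕ), (∀ w ∈ W, r v w) → W.card ≤ 4 * (2 ^ k) ^ 4 := by
    intro v W hW
    refine outdeg E hg (E.e v * s) (fun j : Fin W.card => (W.equivFin.symm j : ℕ)) ?_ ?_
    · exact Subtype.val_injective.comp W.equivFin.symm.injective
    · intro j
      have h := (hW _ (W.equivFin.symm j).2).2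
      rwa [mul_assoc] at h
  have hin : ∀ (w : ℕ) (V : Finset ℕ), (∀ v ∈ V, r v w) → V.card ≤ 4 * (2 ^ k) ^ 4 := by
    intro w V hV
    refine indeg E hg hs w (fun j : Fin V.card => (V.equivFin.symm j : ℕ)) ?_ ?_
    · exact Subtype.val_injective.comp V.equivFin.symm.injective
    · intro j
      exact (hV _ (V.equivFin.symm j).2).2
  have hmat : ∀ (t : ℕ) (v w : Fin t → ℕ), Function.Injective (Sum.elim v w) →
      (∀ j, r (v j) (w j)) → t ≤ 4 * (2 ^ k) ^ 4 :=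
    fun t v w hvw h => matching E hg s v w hvw fun j => (h j).2
  have key := card_le_of_deg hirr hout hin hmat
  have hex : ∀ y : Y, ∃ p : ℕ × ℕ, r p.1 p.2 ∧ (y : 𝔾) = (E.e p.2)⁻¹ * E.e p.1 * s := by
    intro y
    obtain ⟨h1, v, w, hvw, h2⟩ := hY y y.2
    exact ⟨(v, w), ⟨hvw, by rw [← h2]; exact h1⟩, h2⟩
  choose f hf using hex
  have hinj : Function.Injective f := by
    intro x y hxy
    apply Subtype.ext
    rw [(hf x).2, (hf y).2, hxy]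
  have h1 := key (Finset.univ.image f) (by
    intro p hp
    obtain ⟨y, -, rfl⟩ := Finset.mem_image.mp hp
    exact (hf y).1)
  rwa [Finset.card_image_of_injective _ hinj, Finset.card_univ, Fintype.card_coe] at h1

theorem partB [Countable 𝔾] (E : Env k u 𝔾 Ω) (hg : Good A k u) :
    ∃ (a : ℕ → 𝔾) (S : Set 𝔾) (F : Finset 𝔾), Function.Injective a ∧
      (∀ g, ∃ f ∈ F, f * g ∈ S) ∧ ∀ s ∈ S, ∀ v w, v ≠ w → (a w)⁻¹ * a v * s ∉ S := by
  classical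
  obtain ⟨V, hV⟩ := syndetic E hg
  have hinj := inj_e E hg
  obtain ⟨c, hc⟩ := exists_coloring (X := E.S A)
    (fun x y => ∃ v w, v ≠ w ∧ (y : 𝔾) = (E.e w)⁻¹ * E.e v * x)
    (by
      rintro x y ⟨v, w, hvw, h⟩
      refine ⟨w, v, hvw.symm, ?_⟩
      rw [h]
      group)
    (by
      rintro x ⟨v, w, hvw, h⟩
      have h1 : (E.e w)⁻¹ * E.e v = 1 := by
        have h2 : (E.e w)⁻¹ * E.e v * (x : 𝔾) = 1 * x := by rw [← h, one_mul]
        exact mul_right_cancel h2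
      exact hvw (hinj (inv_mul_eq_one.mp h1).symm))
    (Δ := 4 * (4 * (2 ^ k) ^ 4) ^ 2)
    (by
      intro x Y hY
      have h1 := degree E hg x.2 (Y.map (Function.Embedding.subtype _)) (by
        intro y hy
        obtain ⟨z, hz, rfl⟩ := Finset.mem_map.mp hy
        exact ⟨z.2, hY z hz⟩)
      rwa [Finset.card_map] at h1)
  obtain ⟨⟨f, i⟩, S, F, hF, hS⟩ := exists_syndetic (𝔾 := 𝔾)
    (ι := V × Fin (4 * (4 * (2 ^ k) ^ 4) ^ 2 + 1))
    (fun p => {x | ∃ h : (E.cst (p.1 : G))⁻¹ * x ∈ E.S A, c ⟨_, h⟩ = p.2})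
    (fun p => {r | ∃ v w, v ≠ w ∧
      r = (E.e w * (E.cst (p.1 : G))⁻¹)⁻¹ * (E.e v * (E.cst (p.1 : G))⁻¹)})
    (by
      intro x
      obtain ⟨f, hf, hx⟩ := hV x
      exact ⟨(⟨f, hf⟩, c ⟨_, hx⟩), hx, rfl⟩)
    (by
      rintro ⟨f, i⟩ s ⟨hs, hcs⟩ r ⟨v, w, hvw, rfl⟩ ⟨hs', hcs'⟩
      refine hc ⟨_, hs⟩ ⟨_, hs'⟩ ⟨v, w, hvw, ?_⟩ (hcs.trans hcs'.symm)
      show (E.cst (f : G))⁻¹ * ((E.e w * (E.cst (f : G))⁻¹)⁻¹ * (E.e v * (E.cst (f : G))⁻¹) * s) =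
        (E.e w)⁻¹ * E.e v * ((E.cst (f : G))⁻¹ * s)
      group)
  refine ⟨fun v => E.e v * (E.cst (f : G))⁻¹, S, F, ?_, hF, ?_⟩
  · intro v w hvw
    exact hinj (mul_right_cancel hvw)
  · intro s hs v w hvw
    exact hS s hs _ ⟨v, w, hvw, rfl⟩

end Pool.Agent.STC
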