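import Pool.Agent.Helper96.RecurrenceDefs

/-!
# STC B9: difference sets of infinite sequences are measurably recurrent

The sets `a_v • A = (a_v⁻¹ • ·)⁻¹' A` all have measure `μ A > 0` in a probability space, so for some
`v ≠ w` the intersection of `(a_v⁻¹ • ·)⁻¹' A` and `(a_w⁻¹ • ·)⁻¹' A` has positive measure
(otherwise the measures of finitely many of them would add up to more than `1`). Apply the measure
preserving map `a_v • ·`: `0 < μ {x | x ∈ A ∧ (a_w⁻¹ * a_v) • x ∈ A}`. And `a_w⁻¹ * a_v ≠ 1`.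
(See also `Pool/Agent/Helper96/` for similar lemmas.)
-/

set_option autoImplicit false

namespace Pool.Agent.STC

open Helper96.Recurrence MeasureTheory

universe u v

theorem diff_measurablyRecurrent {H : Type u} [Group H] (a : ℕ → H) (ha : Function.Injective a) :
    IsMeasurablyRecurrent.{u, v} H {r | ∃ v w, v ≠ w ∧ r = (a w)⁻¹ * a v} := by
  intro X _ μ _ _ hmp A hA hpos
  have hm : ∀ v, MeasurableSet ((fun x : X => (a v)⁻¹ • x) ⁻¹' A) := fun v =>
    (hmp (a v)⁻¹).measurable hA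
  have hex : ∃ v w, v ≠ w ∧
      0 < μ (((fun x : X => (a v)⁻¹ • x) ⁻¹' A) ∩ ((fun x : X => (a w)⁻¹ • x) ⁻¹' A)) := by
    by_contra hcon
    push Not at hcon
    have h1 : μ (⋃ v, (fun x : X => (a v)⁻¹ • x) ⁻¹' A)
        = ∑' v, μ ((fun x : X => (a v)⁻¹ • x) ⁻¹' A) := by
      refine measure_iUnion₀ (fun v w hvw => ?_) (fun v => (hm v).nullMeasurableSet)
      exact le_antisymm (hcon v w hvw) bot_le
    have h2 : ∀ v, μ ((fun x : X => (a v)⁻¹ • x) ⁻¹' A) = μ A := fun v =>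
      (hmp (a v)⁻¹).measure_preimage hA.nullMeasurableSet
    simp only [h2, ENNReal.tsum_const_eq_top_of_ne_zero hpos.ne'] at h1
    have h3 : μ (⋃ v, (fun x : X => (a v)⁻¹ • x) ⁻¹' A) ≤ 1 := prob_le_one
    rw [h1] at h3
    exact absurd h3 (by simp)
  obtain ⟨v, w, hvw, h⟩ := hex
  refine ⟨(a w)⁻¹ * a v, ⟨v, w, hvw, rfl⟩, ?_, ?_⟩
  · intro h1
    have : a w = a v := by
      rw [inv_mul_eq_one] at h1
      exact h1
    exact hvw (ha this).symm
  · have e : A ∩ (fun x : X => ((a w)⁻¹ * a v) • x) ⁻¹' A = (fun x : X => a v • x) ⁻¹'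
        (((fun x : X => (a v)⁻¹ • x) ⁻¹' A) ∩ ((fun x : X => (a w)⁻¹ • x) ⁻¹' A)) := by
      ext x
      simp only [Set.mem_inter_iff, Set.mem_preimage, inv_smul_smul, mul_smul]
    rw [e, (hmp (a v)).measure_preimage ((hm v).inter (hm w)).nullMeasurableSet]
    exact h

end Pool.Agent.STC
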