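import Pool.Agent.STC.PartA
import Pool.Agent.STC.PartB
import Pool.Agent.STC.Inst
import Pool.Agent.STC.Rec
import Pool.Agent.Helper96.RecurrenceShift
import Pool.Agent.Helper96.RecurrenceFree

/-!
# STC: the final theorem

`partA`, `partB` (for the environment of `exists_env`) give `a`, `S`, `F`
in `𝔾 = LocallyConstant (ℕ → Bool) G` (which is countable since it injects into `H`). Put
`R = {r | ∃ v ≠ w, r = (φ (a w))⁻¹ * φ (a v)}`.
* measurably recurrent: `diff_measurablyRecurrent` for `φ ∘ a`.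
* not topologically recurrent: `exists_equivariant` (RecurrenceFree) gives `τ : H → 𝔾` with
  `τ (φ g * h) = g * τ h`; `S' = τ ⁻¹' S`, `F' = F.image φ`; then `not_topologicallyRecurrent` and
  `not_topologicallyRecurrentHausdorff` (RecurrenceShift).
-/

set_option autoImplicit false

namespace Pool.Agent.STC

open Helper96.Recurrence

universe u v

theorem final_seq {G : Type u} [Group G] (hG : ¬ IsAmenable G) {H : Type u} [Group H]
    [Countable H] (φ : LocallyConstant (ℕ → Bool) G →* H) (hφ : Function.Injective φ) :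
    ∃ a : ℕ → H, Function.Injective a ∧
      IsMeasurablyRecurrent.{u, v} H {r | ∃ v w, v ≠ w ∧ r = (a w)⁻¹ * a v} ∧
      ¬ IsTopologicallyRecurrent.{u, u} H {r | ∃ v w, v ≠ w ∧ r = (a w)⁻¹ * a v} ∧
      ¬ IsTopologicallyRecurrentHausdorff.{u, u} H {r | ∃ v w, v ≠ w ∧ r = (a w)⁻¹ * a v} := by
  classical
  obtain ⟨A, k, w, hg⟩ := partA G hG
  obtain ⟨E⟩ := exists_env k w
  have : Countable (LocallyConstant (ℕ → Bool) G) := hφ.countable
  obtain ⟨a, S, F, ha, hF, hS⟩ := partB E hg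
  obtain ⟨τ, hτ⟩ := exists_equivariant φ hφ
  have h1 : ∀ g : H, ∃ f ∈ F.image φ, f * g ∈ τ ⁻¹' S := by
    intro g
    obtain ⟨f, hf, hfg⟩ := hF (τ g)
    refine ⟨φ f, Finset.mem_image_of_mem _ hf, ?_⟩
    show τ (φ f * g) ∈ S
    rw [hτ]
    exact hfg
  have h2 : ∀ s ∈ τ ⁻¹' S, ∀ r ∈ {r | ∃ v w, v ≠ w ∧ r = (φ (a w))⁻¹ * φ (a v)},
      r * s ∉ τ ⁻¹' S := by
    rintro s hs r ⟨v, w, hvw, rfl⟩ hmem
    have h3 : τ (φ ((a w)⁻¹ * a v) * s) = (a w)⁻¹ * a v * τ s := hτ _ _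
    rw [map_mul, map_inv] at h3
    have h4 : τ ((φ (a w))⁻¹ * φ (a v) * s) ∈ S := hmem
    rw [h3] at h4
    exact hS (τ s) hs v w hvw h4
  refine ⟨fun v => φ (a v), hφ.comp ha, ?_, ?_, ?_⟩
  · exact diff_measurablyRecurrent (fun v => φ (a v)) (hφ.comp ha)
  · exact not_topologicallyRecurrent _ _ _ h1 h2
  · exact not_topologicallyRecurrentHausdorff _ _ _ h1 h2

theorem final {G : Type u} [Group G] (hG : ¬ IsAmenable G) {H : Type u} [Group H]
    [Countable H] (φ : LocallyConstant (ℕ → Bool) G →* H) (hφ : Function.Injective φ) :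
    ∃ R : Set H, IsMeasurablyRecurrent.{u, v} H R ∧ ¬ IsTopologicallyRecurrent.{u, u} H R ∧
      ¬ IsTopologicallyRecurrentHausdorff.{u, u} H R := by
  obtain ⟨a, -, h⟩ := final_seq.{u, v} hG φ hφ
  exact ⟨_, h⟩

end Pool.Agent.STC
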