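import Pool.Agent.STC.Defs

/-!
# STC A2-A4: minimax on a minimal set

* `orbit_lt`: fix `m ∈ Q`. Suppose `c ≤ ℓ (ρ g m)` for all `g`. Then
  `Q' = {x ∈ Q | ∀ g, c ≤ ℓ (ρ g x)}` is compact (closed in `Q`), convex, contains `m`, and is
  invariant (`ρ g (ρ h x) = ρ (g * h) x`), so `Q' = Q` and `c ≤ ℓ (ρ 1 m₀) = ℓ m₀`, contradiction.
* `minimax`: by `orbit_lt` (for `g⁻¹`) the open sets `{m | ℓ (ρ g⁻¹ m) < c}` cover `Q`; take a finite
  subcover indexed by the finset `W`. In `W → ℝ` (finite dimensional) the set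
  `K = {y | ∃ m ∈ Q, y = fun g => ℓ (ρ g⁻¹ m)}` is compact and convex, `N = {y | ∀ g, c ≤ y g}` is
  closed and convex, and they are disjoint. `geometric_hahn_banach_compact_closed` gives a linear
  functional `y ↦ ∑ f_g y_g` and `s < t` with value `< s` on `K` and `> t` on `N`. As `N` is
  stable under adding non-negative vectors, `f_g ≥ 0`; `∑ f_g > 0` (otherwise the functional is `0`;
  `K` and `N` are non-empty). Put `p g = f_g/∑ f`. The constant vector `c` is in `N`, so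
  `∑ p_g y_g < c` on `K`. (`p g = 0` outside `W`.)
* `conc`: apply `minimax` with `a + β (c - a)`; then
  `(c - a) mass {f | c ≤ ℓ (ρ f⁻¹ m)} ≤ ∑ p f (ℓ (ρ f⁻¹ m) - a) < β (c - a)`.
-/

set_option autoImplicit false

namespace Pool.Agent.STC

variable {G E : Type*} [Group G] [AddCommGroup E] [Module ℝ E] [TopologicalSpace E]
  {ρ : G →* (E →L[ℝ] E)} {Q : Set E}

theorem orbit_lt [T2Space E] (h : IsMin ρ Q) (ℓ : E →L[ℝ] ℝ) {c : ℝ} {m₀ : E} (hm₀ : m₀ ∈ Q)
    (hc : ℓ m₀ < c) {m : E} (hm : m ∈ Q) : ∃ g : G, ℓ (ρ g m) < c := by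
  by_contra hcon
  push Not at hcon
  set Q' : Set E := {x | x ∈ Q ∧ ∀ g : G, c ≤ ℓ (ρ g x)} with hQ'
  have hcl : IsClosed {x : E | ∀ g : G, c ≤ ℓ (ρ g x)} := by
    rw [Set.ofPred_forall]
    exact isClosed_iInter (fun g => isClosed_le continuous_const (ℓ.continuous.comp (ρ g).continuous))
  have h1 : Q' = Q := by
    refine h.min Q' (fun x hx => hx.1) (h.compact.inter_right hcl) ?_ ⟨m, hm, hcon⟩ ?_
    · intro x hx y hy a b ha hb hab
      refine ⟨h.convex hx.1 hy.1 ha hb hab, fun g => ?_⟩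
      rw [map_add, map_smul, map_smul, map_add, map_smul, map_smul, smul_eq_mul, smul_eq_mul]
      have h2 := mul_le_mul_of_nonneg_left (hx.2 g) ha
      have h3 := mul_le_mul_of_nonneg_left (hy.2 g) hb
      have h4 : c = a * c + b * c := by rw [← add_mul, hab, one_mul]
      linarith
    · intro g x hx
      refine ⟨h.inv g x hx.1, fun k => ?_⟩
      have h2 : ρ k (ρ g x) = ρ (k * g) x := by
        rw [map_mul]
        rfl
      rw [h2]
      exact hx.2 _
  have h2 : m₀ ∈ Q' := by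
    rw [h1]
    exact hm₀
  have h3 := h2.2 1
  rw [map_one] at h3
  exact absurd hc (not_lt.2 h3)

theorem minimax [T2Space E] (h : IsMin ρ Q) (ℓ : E →L[ℝ] ℝ) {c : ℝ} {m₀ : E} (hm₀ : m₀ ∈ Q)
    (hc : ℓ m₀ < c) :
    ∃ (V : Finset G) (p : G → ℝ), IsPr V p ∧ ∀ m ∈ Q, ∑ f ∈ V, p f * ℓ (ρ f⁻¹ m) < c := by
  classical
  obtain ⟨t, ht⟩ := h.compact.elim_finite_subcover (fun g : G => {m : E | ℓ (ρ g⁻¹ m) < c})
    (fun g => isOpen_lt (ℓ.continuous.comp (ρ g⁻¹).continuous) continuous_const)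
    (by
      intro m hm
      obtain ⟨g, hg⟩ := orbit_lt h ℓ hm₀ hc hm
      rw [Set.mem_iUnion]
      exact ⟨g⁻¹, by simpa using hg⟩)
  let L : E →L[ℝ] (t → ℝ) := ContinuousLinearMap.pi (fun g : t => ℓ.comp (ρ (g : G)⁻¹))
  have hL : ∀ (m : E) (g : t), L m g = ℓ (ρ (g : G)⁻¹ m) := fun m g => rfl
  have hKc : IsCompact (L '' Q) := h.compact.image L.continuous
  have hKv : Convex ℝ (L '' Q) := h.convex.linear_image (L : E →ₗ[ℝ] (t → ℝ))
  set N : Set (t → ℝ) := {y | ∀ g, c ≤ y g} with hN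
  have hNcl : IsClosed N := by
    rw [hN, Set.ofPred_forall]
    exact isClosed_iInter (fun g => isClosed_le continuous_const (continuous_apply g))
  have hNv : Convex ℝ N := by
    intro x hx y hy a b ha hb hab g
    have h2 := mul_le_mul_of_nonneg_left (hx g) ha
    have h3 := mul_le_mul_of_nonneg_left (hy g) hb
    have h4 : c = a * c + b * c := by rw [← add_mul, hab, one_mul]
    simp only [Pi.add_apply, Pi.smul_apply, smul_eq_mul]
    linarith
  have hdisj : Disjoint (L '' Q) N := by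
    rw [Set.disjoint_left]
    rintro y ⟨m, hm, rfl⟩ hy
    have h2 := ht hm
    simp only [Set.mem_iUnion] at h2
    obtain ⟨g, hg, hgm⟩ := h2
    have h3 := hy ⟨g, hg⟩
    rw [hL] at h3
    exact absurd hgm (not_lt.2 h3)
  obtain ⟨f, u, v, hfu, huv, hfv⟩ := geometric_hahn_banach_compact_closed hKv hKc hNv hNcl hdisj
  set w : t → ℝ := fun i => f (fun j => if i = j then 1 else 0) with hw
  have hfw : ∀ y : t → ℝ, f y = ∑ i, y i * w i := by
    intro y
    have h2 := LinearMap.pi_apply_eq_sum_univ (f : (t → ℝ) →ₗ[ℝ] ℝ) y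
    simpa [hw, smul_eq_mul] using h2
  have hcN : (fun _ => c) ∈ N := fun _ => le_rfl
  have hcv := hfv _ hcN
  have hw0 : ∀ i, 0 ≤ w i := by
    intro i
    by_contra hneg
    push Not at hneg
    set s : ℝ := (f (fun _ => c) - v) / (-w i) with hs
    have hs0 : 0 ≤ s := div_nonneg (by linarith) (by linarith)
    have h2 : (fun j => c + if i = j then s else 0) ∈ N := by
      intro j
      change c ≤ c + if i = j then s else 0
      split_ifs
      · linarith
      · linarith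
    have h3 := hfv _ h2
    have h4 : (fun j => c + if i = j then s else 0)
        = (fun _ : t => c) + s • (fun j : t => if i = j then (1 : ℝ) else 0) := by
      funext j
      simp only [Pi.add_apply, Pi.smul_apply, smul_eq_mul]
      split_ifs <;> ring
    rw [h4, map_add, map_smul, smul_eq_mul] at h3
    have h5 : s * w i = -(f (fun _ => c) - v) := by
      rw [hs]
      have : w i ≠ 0 := hneg.ne
      field_simp
    rw [show f (fun j : t => if i = j then (1 : ℝ) else 0) = w i from rfl, h5] at h3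
    linarith
  have hS : 0 < ∑ i, w i := by
    refine lt_of_le_of_ne (Finset.sum_nonneg (fun i _ => hw0 i)) (fun h0 => ?_)
    have h2 : ∀ i, w i = 0 := by
      intro i
      exact (Finset.sum_eq_zero_iff_of_nonneg (fun i _ => hw0 i)).1 h0.symm i (Finset.mem_univ i)
    have h3 : ∀ y : t → ℝ, f y = 0 := by
      intro y
      rw [hfw]
      exact Finset.sum_eq_zero (fun i _ => by rw [h2 i, mul_zero])
    have h4 := hfu _ (Set.mem_image_of_mem L hm₀)
    rw [h3] at h4 hcv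
    linarith
  refine ⟨t, fun g => if hg : g ∈ t then w ⟨g, hg⟩ / ∑ i, w i else 0, ⟨?_, ?_⟩, ?_⟩
  · intro g hg
    rw [dif_pos hg]
    exact div_nonneg (hw0 _) hS.le
  · rw [← Finset.sum_coe_sort t]
    have h2 : ∀ i : t, (if hg : (i : G) ∈ t then w ⟨i, hg⟩ / ∑ i, w i else 0)
        = w i / ∑ i, w i := by
      intro i
      rw [dif_pos i.2]
    rw [Finset.sum_congr rfl (fun i _ => h2 i), ← Finset.sum_div, div_self hS.ne']
  · intro m hm
    rw [← Finset.sum_coe_sort t]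
    have h2 : ∀ i : t, (if hg : (i : G) ∈ t then w ⟨i, hg⟩ / ∑ i, w i else 0)
        * ℓ (ρ (i : G)⁻¹ m) = (L m i * w i) / ∑ i, w i := by
      intro i
      rw [dif_pos i.2, hL]
      ring
    rw [Finset.sum_congr rfl (fun i _ => h2 i), ← Finset.sum_div, ← hfw, div_lt_iff₀ hS]
    have h3 := hfu _ (Set.mem_image_of_mem L hm)
    have h4 : f (fun _ => c) = c * ∑ i, w i := by
      rw [hfw, Finset.mul_sum]
    rw [h4] at hcv
    linarith

theorem conc [T2Space E] (h : IsMin ρ Q) (ℓ : E →L[ℝ] ℝ) {a c β : ℝ} {m₀ : E} (hm₀ : m₀ ∈ Q)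
    (ha : ∀ m ∈ Q, a ≤ ℓ m) (ham : ℓ m₀ = a) (hac : a < c) (hβ : 0 < β) :
    ∃ (V : Finset G) (p : G → ℝ), IsPr V p ∧
      ∀ m ∈ Q, mass V p (fun f => c ≤ ℓ (ρ f⁻¹ m)) ≤ β := by
  classical
  have hca : 0 < c - a := by linarith
  obtain ⟨V, p, hp, hV⟩ := minimax h ℓ (c := a + β * (c - a)) hm₀
    (by rw [ham]; have := mul_pos hβ hca; linarith)
  refine ⟨V, p, hp, fun m hm => ?_⟩
  have h1 : ∀ f ∈ V, 0 ≤ p f * (ℓ (ρ f⁻¹ m) - a) := by
    intro f hf
    have h2 := ha _ (h.inv f⁻¹ m hm)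
    exact mul_nonneg (hp.nonneg f hf) (by linarith)
  have h2 : (c - a) * mass V p (fun f => c ≤ ℓ (ρ f⁻¹ m)) ≤ ∑ f ∈ V, p f * (ℓ (ρ f⁻¹ m) - a) := by
    unfold mass
    rw [Finset.mul_sum]
    refine le_trans (Finset.sum_le_sum (fun f hf => ?_))
      (Finset.sum_le_sum_of_subset_of_nonneg (Finset.filter_subset _ _) (fun f hf _ => h1 f hf))
    rw [Finset.mem_filter] at hf
    have h3 := mul_le_mul_of_nonneg_left (sub_le_sub_right hf.2 a) (hp.nonneg f hf.1)
    linarith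
  have h3 : ∑ f ∈ V, p f * (ℓ (ρ f⁻¹ m) - a) = (∑ f ∈ V, p f * ℓ (ρ f⁻¹ m)) - a := by
    simp_rw [mul_sub]
    rw [Finset.sum_sub_distrib, ← Finset.sum_mul, hp.sum_one, one_mul]
  have h4 := hV m hm
  have h5 : (c - a) * mass V p (fun f => c ≤ ℓ (ρ f⁻¹ m)) < (c - a) * β := by
    rw [h3] at h2
    linarith
  exact (lt_of_mul_lt_mul_left h5 hca.le).le

end Pool.Agent.STC
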