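import Pool.Agent.STC.Defs

/-!
# STC A5, A6: extreme points and slices

* `exists_extreme_min`: `F = {x ∈ Q | ∀ m ∈ Q, ψ x ≤ ψ m}` is non-empty (compactness), compact,
  convex and an extreme (exposed) subset of `Q`; `IsCompact.extremePoints_nonempty` gives an extreme
  point of `F`, and `IsExtreme.extremePoints_subset_extremePoints` makes it an extreme point of `Q`.
* `slice`: by induction on the finset `s` there is a compact convex `K ⊆ Q` with `x ∉ K` and
  `C i ⊆ K` for `i ∈ s` (start with `K = ∅`). Step: for `K`, `C` compact convex subsets of `Q` not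
  containing `x`; if one of them is empty take the other one; otherwise
  `K' = {(1 - t) a + t b | t ∈ [0,1], a ∈ K, b ∈ C}` (`convexJoin ℝ K C`,
  `Convex.convexJoin`) is convex, compact (continuous image of `[0,1] × K × C`), contained in `Q`,
  contains `K` and `C`, and `x ∉ K'`: if `x = (1 - t) a + t b` with `t ∈ (0,1)` then `a = b = x` as
  `x` is extreme in `Q`; if `t = 0` or `t = 1` then `x = a` or `x = b`.
  Finally separate `{x}` from `K` by `geometric_hahn_banach_point_closed` or
  `geometric_hahn_banach_compact_closed` (`K` is closed as `E` is Hausdorff; if `K` is empty take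
  `ℓ = 0`, `c = 1`).
-/

set_option autoImplicit false

namespace Pool.Agent.STC

variable {E : Type*} [AddCommGroup E] [Module ℝ E] [TopologicalSpace E] [IsTopologicalAddGroup E]
  [ContinuousSMul ℝ E] [LocallyConvexSpace ℝ E] [T2Space E] {Q : Set E}

theorem exists_extreme_min (hQ : IsCompact Q) (hconv : Convex ℝ Q) (hne : Q.Nonempty)
    (ψ : E →L[ℝ] ℝ) : ∃ x ∈ Q.extremePoints ℝ, ∀ m ∈ Q, ψ x ≤ ψ m := by
  obtain ⟨x0, hx0, hmin⟩ := hQ.exists_isMinOn hne ψ.continuous.continuousOn
  have hF : IsExposed ℝ Q ((-ψ).toExposed Q) := ContinuousLinearMap.toExposed.isExposed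
  have hFne : ((-ψ).toExposed Q).Nonempty := by
    refine ⟨x0, hx0, fun y hy => ?_⟩
    have h1 : ψ x0 ≤ ψ y := hmin hy
    simpa using h1
  obtain ⟨x, hx⟩ := (hF.isCompact hQ).extremePoints_nonempty hFne
  refine ⟨x, hF.isExtreme.extremePoints_subset_extremePoints hx, fun m hm => ?_⟩
  have h2 := (extremePoints_subset hx).2 m hm
  simpa using h2

private theorem compact_join {K D : Set E} (hK : IsCompact K) (hD : IsCompact D) :
    IsCompact (convexJoin ℝ K D) := by
  have h1 : convexJoin ℝ K D =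
      (fun p : ℝ × E × E => (1 - p.1) • p.2.1 + p.1 • p.2.2) '' (Set.Icc 0 1 ×ˢ (K ×ˢ D)) := by
    ext y
    rw [mem_convexJoin, Set.mem_image]
    constructor
    · rintro ⟨a, ha, b, hb, hy⟩
      rw [segment_eq_image] at hy
      obtain ⟨t, ht, rfl⟩ := hy
      exact ⟨(t, a, b), ⟨ht, ha, hb⟩, rfl⟩
    · rintro ⟨⟨t, a, b⟩, ⟨ht, ha, hb⟩, rfl⟩
      refine ⟨a, ha, b, hb, ?_⟩
      rw [segment_eq_image]
      exact ⟨t, ht, rfl⟩
  rw [h1]
  refine (isCompact_Icc.prod (hK.prod hD)).image ?_
  fun_prop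

theorem slice (hQ : IsCompact Q) (hconv : Convex ℝ Q) {x : E} (hx : x ∈ Q.extremePoints ℝ)
    {ι : Type*} (s : Finset ι) (C : ι → Set E)
    (hC : ∀ i ∈ s, IsCompact (C i) ∧ Convex ℝ (C i) ∧ C i ⊆ Q ∧ x ∉ C i) :
    ∃ (ℓ : E →L[ℝ] ℝ) (c : ℝ), ℓ x < c ∧ ∀ i ∈ s, ∀ m ∈ C i, c ≤ ℓ m := by
  classical
  have key : ∃ K : Set E, IsCompact K ∧ Convex ℝ K ∧ K ⊆ Q ∧ x ∉ K ∧ ∀ i ∈ s, C i ⊆ K := by
    induction s using Finset.induction_on with
    | empty => exact ⟨∅, isCompact_empty, convex_empty, Set.empty_subset _, by simp, by simp⟩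
    | insert a s ha ih =>
      obtain ⟨K, h1, h2, h3, h4, h5⟩ := ih fun i hi => hC i (Finset.mem_insert_of_mem hi)
      obtain ⟨d1, d2, d3, d4⟩ := hC a (Finset.mem_insert_self a s)
      rcases K.eq_empty_or_nonempty with hK | hK
      · refine ⟨C a, d1, d2, d3, d4, fun i hi => ?_⟩
        rcases Finset.mem_insert.mp hi with rfl | hi
        · exact subset_rfl
        · have := h5 i hi
          rw [hK] at this
          exact this.trans (Set.empty_subset _)
      rcases (C a).eq_empty_or_nonempty with hD | hD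
      · refine ⟨K, h1, h2, h3, h4, fun i hi => ?_⟩
        rcases Finset.mem_insert.mp hi with rfl | hi
        · rw [hD]; exact Set.empty_subset _
        · exact h5 i hi
      refine ⟨convexJoin ℝ K (C a), compact_join h1 d1, h2.convexJoin d2,
        convexJoin_subset h3 d3 hconv, ?_, fun i hi => ?_⟩
      · intro hmem
        obtain ⟨a', ha', b', hb', hseg⟩ := mem_convexJoin.mp hmem
        rcases (mem_extremePoints_iff_forall_segment.mp hx).2 a' (h3 ha') b' (d3 hb') hseg with
          h | h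
        · rw [h] at ha'; exact h4 ha'
        · rw [h] at hb'; exact d4 hb'
      · rcases Finset.mem_insert.mp hi with rfl | hi
        · exact subset_convexJoin_right hK
        · exact (h5 i hi).trans (subset_convexJoin_left hD)
  obtain ⟨K, h1, h2, -, h4, h5⟩ := key
  obtain ⟨ℓ, c, h6, h7⟩ := geometric_hahn_banach_point_closed h2 h1.isClosed h4
  exact ⟨ℓ, c, h6, fun i hi m hm => (h7 m (h5 i hi hm)).le⟩

end Pool.Agent.STC
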