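import Pool.Agent.STC.Defs

/-!
# STC A7: trimming a probability

`IsPr V q`, and for every `u ∈ V` the mass of `{e | bad e u}` is at most `1/16`. Then
`∑_{e} q e · mass {u | bad e u} = ∑_u q u · mass {e | bad e u} ≤ 1/16`, so (Markov) the set
`V₁ = {e ∈ V | mass {u | bad e u} ≤ 1/4}` has mass `≥ 3/4`. Let `V' = {e ∈ V₁ | 0 < q e}` and
`q' = q / q(V')`; `q(V') = q(V₁) ≥ 3/4 ≥ 1/2`. For `e ∈ V'` the mass of `{u ∈ V' | ¬ bad e u}` is at
least `3/4 - 1/4 > 0`. And `q' ≤ 2 q` on `V'`.
-/

set_option autoImplicit false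

namespace Pool.Agent.STC

theorem trim {G : Type*} {V : Finset G} {q : G → ℝ} (hq : IsPr V q) (bad : G → G → Prop)
    (hbad : ∀ u ∈ V, mass V q (fun e => bad e u) ≤ 1 / 16) :
    ∃ (V' : Finset G) (q' : G → ℝ), V' ⊆ V ∧ IsPr V' q' ∧ (∀ e ∈ V', 0 < q' e) ∧
      (∀ e ∈ V', ∃ u ∈ V', ¬ bad e u) ∧ ∀ T : G → Prop, mass V' q' T ≤ 2 * mass V q T := by
  classical
  have hm : ∀ (U : Finset G) (p : G → ℝ) (T : G → Prop),
      mass U p T = ∑ f ∈ U, if T f then p f else 0 := by
    intro U p T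
    rw [mass, Finset.sum_filter]
  have hm0 : ∀ T : G → Prop, 0 ≤ mass V q T := by
    intro T
    exact Finset.sum_nonneg fun f hf => hq.nonneg f (Finset.mem_filter.1 hf).1
  have hsum : ∑ e ∈ V, q e * mass V q (fun u => bad e u) ≤ 1 / 16 := by
    have e1 : ∑ e ∈ V, q e * mass V q (fun u => bad e u)
        = ∑ u ∈ V, q u * mass V q (fun e => bad e u) := by
      simp only [hm, Finset.mul_sum]
      rw [Finset.sum_comm]
      refine Finset.sum_congr rfl fun u _ => Finset.sum_congr rfl fun e _ => ?_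
      split_ifs <;> ring
    rw [e1]
    calc _ ≤ ∑ u ∈ V, q u * (1 / 16) :=
          Finset.sum_le_sum fun u hu => mul_le_mul_of_nonneg_left (hbad u hu) (hq.nonneg u hu)
      _ = 1 / 16 := by rw [← Finset.sum_mul, hq.sum_one, one_mul]
  set V₁ := V.filter (fun e => mass V q (fun u => bad e u) ≤ 1 / 4) with hV₁
  set V' := V₁.filter (fun e => 0 < q e) with hV'
  have hW : ∑ e ∈ V.filter (fun e => ¬ mass V q (fun u => bad e u) ≤ 1 / 4), q e ≤ 1 / 4 := by
    have h1 : (1 / 4) * ∑ e ∈ V.filter (fun e => ¬ mass V q (fun u => bad e u) ≤ 1 / 4), q e ≤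
        ∑ e ∈ V, q e * mass V q (fun u => bad e u) := by
      rw [Finset.mul_sum]
      refine (Finset.sum_le_sum (g := fun e => q e * mass V q (fun u => bad e u))
        fun e he => ?_).trans ?_
      · obtain ⟨he1, he2⟩ := Finset.mem_filter.1 he
        have := hq.nonneg e he1
        have h2 := (not_le.1 he2).le
        nlinarith
      · exact Finset.sum_le_sum_of_subset_of_nonneg (Finset.filter_subset _ _)
          fun e he _ => mul_nonneg (hq.nonneg e he) (hm0 _)
    linarith
  have hV₁s : 3 / 4 ≤ ∑ e ∈ V₁, q e := by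
    have := Finset.sum_filter_add_sum_filter_not V
      (fun e => mass V q (fun u => bad e u) ≤ 1 / 4) q
    rw [hq.sum_one] at this
    linarith
  have hsub : V' ⊆ V := (Finset.filter_subset _ _).trans (Finset.filter_subset _ _)
  have hV's : ∑ e ∈ V', q e = ∑ e ∈ V₁, q e := by
    refine Finset.sum_subset (Finset.filter_subset _ _) fun e he hne => ?_
    have h1 : ¬ 0 < q e := fun h => hne (Finset.mem_filter.2 ⟨he, h⟩)
    exact le_antisymm (not_lt.1 h1) (hq.nonneg e (Finset.mem_filter.1 he).1)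
  set c := ∑ e ∈ V', q e with hc
  have hc34 : 3 / 4 ≤ c := by rw [hV's]; exact hV₁s
  have hc0 : 0 < c := by linarith
  refine ⟨V', fun e => q e / c, hsub, ⟨?_, ?_⟩, ?_, ?_, ?_⟩
  · intro f hf
    exact div_nonneg (hq.nonneg f (hsub hf)) hc0.le
  · rw [← Finset.sum_div, ← hc, div_self hc0.ne']
  · intro e he
    exact div_pos (Finset.mem_filter.1 he).2 hc0
  · intro e he
    by_contra hcon
    push Not at hcon
    have h1 : c ≤ mass V q (fun u => bad e u) := by
      rw [hc, mass]
      refine Finset.sum_le_sum_of_subset_of_nonneg (fun u hu => ?_) fun u hu _ => ?_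
      · exact Finset.mem_filter.2 ⟨hsub hu, hcon u hu⟩
      · exact hq.nonneg u (Finset.mem_filter.1 hu).1
    have h2 : mass V q (fun u => bad e u) ≤ 1 / 4 :=
      (Finset.mem_filter.1 (Finset.mem_filter.1 he).1).2
    linarith
  · intro T
    have h1 : mass V' (fun e => q e / c) T = (∑ e ∈ V'.filter T, q e) / c := by
      rw [mass, Finset.sum_div]
    have h2 : ∑ e ∈ V'.filter T, q e ≤ mass V q T := by
      rw [mass]
      refine Finset.sum_le_sum_of_subset_of_nonneg (fun u hu => ?_) fun u hu _ => ?_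
      · obtain ⟨hu1, hu2⟩ := Finset.mem_filter.1 hu
        exact Finset.mem_filter.2 ⟨hsub hu1, hu2⟩
      · exact hq.nonneg u (Finset.mem_filter.1 hu).1
    rw [h1, div_le_iff₀ hc0]
    have := hm0 T
    nlinarith

end Pool.Agent.STC
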