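import Pool.Agent.STC.MinSet
import Pool.Agent.STC.Conc
import Pool.Agent.STC.Ext
import Pool.Agent.STC.Trim

/-!
# STC A8: assembly of the functional analytic part

`Q` minimal, `ψ` not constant on `Q`. `a = min_Q ψ`, `b = max_Q ψ`, `a < b`; choose `c` between.
* By `conc` for `-ψ` (minimum `-b`, threshold `-c`) with `β = 1/16`: `IsPr V q` with
  `mass V q {e | ψ (ρ e⁻¹ m) ≤ c} ≤ 1/16` for all `m ∈ Q`.
* `x` = extreme point with `ψ x = a` (`exists_extreme_min`).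
* `trim` with `bad e u := ψ (ρ (e⁻¹ * u) x) ≤ c` (the hypothesis is the first item for
  `m = ρ u x ∈ Q`): `V'`, `q'`. For `e ∈ V'` choose `u_e ∈ V'` with `c < ψ (ρ (e⁻¹ * u_e) x)`.
* `C none = {m ∈ Q | c ≤ ψ m}`, `C (some e) = {m ∈ Q | ψ (ρ (e⁻¹ * u_e) m) ≤ c}` (`e ∈ V'`) are
  compact convex subsets of `Q` not containing `x`; `slice` gives `ℓ`, `c'` with `ℓ x < c'` and
  `c' ≤ ℓ` on all of them. So `m ∈ Q`, `ℓ m < c'` imply `m ∈ W`, where
  `W = {m ∈ Q | ψ m < c ∧ ∀ e ∈ V', c < ψ (ρ (e⁻¹ * u_e) m)}`.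
* `A = {g | ρ g x ∈ W}`.
  (1) `e⁻¹ * g ∈ A` implies `ψ (ρ e⁻¹ (ρ g x)) < c`: mass `≤ 2/16 = 1/8`.
  (2) `g ∈ A`, `e ∈ V'`: `ψ (ρ (e⁻¹ * u_e * g) x) > c`, so `e⁻¹ * u_e * g ∉ A`.
  (3) `conc` for `ℓ` with `a' = min_Q ℓ ≤ ℓ x < c'` (compactness gives a minimum point) and `β`:
  `f⁻¹ * g ∉ A` implies `c' ≤ ℓ (ρ f⁻¹ (ρ g x))`, so `mass {f | f⁻¹ * g ∈ A} ≥ 1 - β`.
-/

set_option autoImplicit false

namespace Pool.Agent.STC

private theorem core_mass_mono {G : Type*} {V : Finset G} {p : G → ℝ} (hp : IsPr V p)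
    {T T' : G → Prop} (h : ∀ f ∈ V, T f → T' f) : mass V p T ≤ mass V p T' := by
  classical
  unfold mass
  apply Finset.sum_le_sum_of_subset_of_nonneg
  · intro f hf
    rw [Finset.mem_filter] at *
    exact ⟨hf.1, h f hf.1 hf.2⟩
  · intro f hf _
    exact hp.nonneg f (Finset.mem_filter.mp hf).1

private theorem core_mass_not {G : Type*} {V : Finset G} {p : G → ℝ} (hp : IsPr V p)
    (T : G → Prop) : mass V p T = 1 - mass V p (fun f => ¬ T f) := by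
  classical
  have h := Finset.sum_filter_add_sum_filter_not V T p
  rw [hp.sum_one] at h
  unfold mass
  rw [← h]
  have h1 : (∑ f ∈ V.filter (fun f => ¬ T f), p f)
      = ∑ f ∈ @Finset.filter G (fun f => ¬ T f) (fun _ => Classical.propDecidable _) V, p f := by
    congr
  have h2 : (∑ f ∈ V.filter T, p f)
      = ∑ f ∈ @Finset.filter G T (fun _ => Classical.propDecidable _) V, p f := by
    congr
  rw [h1, h2]
  ring

variable {G E : Type*} [Group G] [AddCommGroup E] [Module ℝ E] [TopologicalSpace E]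
  [IsTopologicalAddGroup E] [ContinuousSMul ℝ E] [LocallyConvexSpace ℝ E] [T2Space E]
  {ρ : G →* (E →L[ℝ] E)} {Q : Set E}

theorem core (h : IsMin ρ Q) (ψ : E →L[ℝ] ℝ) {m₁ m₂ : E} (h1 : m₁ ∈ Q) (h2 : m₂ ∈ Q)
    (h12 : ψ m₁ < ψ m₂) :
    ∃ (A : Set G) (V : Finset G) (q : G → ℝ), IsPr V q ∧ (∀ e ∈ V, 0 < q e) ∧
      (∀ g : G, mass V q (fun e => e⁻¹ * g ∈ A) ≤ 1 / 8) ∧
      (∀ g ∈ A, ∀ e ∈ V, ∃ u ∈ V, e⁻¹ * u * g ∉ A) ∧
      ∀ β : ℝ, 0 < β → ∃ (V' : Finset G) (p : G → ℝ), IsPr V' p ∧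
        ∀ g : G, 1 - β ≤ mass V' p (fun f => f⁻¹ * g ∈ A) := by
  classical
  obtain ⟨x, hxE, hx⟩ := exists_extreme_min h.compact h.convex h.nonempty ψ
  have hxQ : x ∈ Q := extremePoints_subset hxE
  obtain ⟨b₀, hb₀Q, hb₀⟩ := h.compact.exists_isMaxOn h.nonempty ψ.continuous.continuousOn
  have hb₀' : ∀ m ∈ Q, ψ m ≤ ψ b₀ := fun m hm => hb₀ hm
  have hab : ψ x < ψ b₀ := lt_of_le_of_lt (hx m₁ h1) (lt_of_lt_of_le h12 (hb₀' m₂ h2))
  obtain ⟨c, hac, hcb⟩ := exists_between hab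
  obtain ⟨V, q, hq, hqc⟩ := conc h (-ψ) (a := -ψ b₀) (c := -c) (β := 1 / 16) hb₀Q
    (fun m hm => neg_le_neg (hb₀' m hm)) rfl (neg_lt_neg hcb) (by norm_num)
  have hqc' : ∀ m ∈ Q, mass V q (fun f => ψ (ρ f⁻¹ m) ≤ c) ≤ 1 / 16 := by
    intro m hm
    refine (core_mass_mono hq ?_).trans (hqc m hm)
    intro f _ hf
    exact neg_le_neg hf
  have hmul : ∀ (g g' : G) (m : E), ρ (g * g') m = ρ g (ρ g' m) := by
    intro g g' m
    rw [map_mul]
    rfl
  obtain ⟨V', q', hV', hq', hpos, hgood, hmass⟩ := trim hq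
    (fun e u => ψ (ρ (e⁻¹ * u) x) ≤ c) (by
      intro u _
      refine (core_mass_mono hq ?_).trans (hqc' (ρ u x) (h.inv u x hxQ))
      intro f _ hf
      rwa [hmul] at hf)
  choose! w hwV hw using hgood
  let C : Option G → Set E := fun o =>
    o.elim {m | m ∈ Q ∧ c ≤ ψ m} (fun e => {m | m ∈ Q ∧ ψ (ρ (e⁻¹ * w e) m) ≤ c})
  obtain ⟨ℓ, c', hℓx, hℓC⟩ := slice h.compact h.convex hxE (Finset.insertNone V') C (by
    intro o ho
    cases o with
    | none =>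
      refine ⟨?_, ?_, fun m hm => hm.1, fun hm => absurd hm.2 (not_le.mpr hac)⟩
      · exact h.compact.inter_right (isClosed_le continuous_const ψ.continuous)
      · exact h.convex.inter (convex_halfSpace_ge (LinearMap.isLinear ψ.toLinearMap) c)
    | some e =>
      have he : e ∈ V' := by simpa using ho
      refine ⟨?_, ?_, fun m hm => hm.1, fun hm => hw e he hm.2⟩
      · exact h.compact.inter_right (isClosed_le (ψ.continuous.comp (ρ (e⁻¹ * w e)).continuous)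
          continuous_const)
      · exact h.convex.inter (convex_halfSpace_le
          (LinearMap.isLinear (ψ.comp (ρ (e⁻¹ * w e))).toLinearMap) c))
  have hψ : ∀ g : G, ℓ (ρ g x) < c' → ψ (ρ g x) < c := by
    intro g hg
    by_contra hcon
    exact absurd (hℓC none (by simp) (ρ g x) ⟨h.inv g x hxQ, not_lt.mp hcon⟩) (not_le.mpr hg)
  refine ⟨{g | ℓ (ρ g x) < c'}, V', q', hq', hpos, ?_, ?_, ?_⟩
  · intro g
    refine (hmass _).trans ?_
    have h3 : mass V q (fun e => e⁻¹ * g ∈ {g | ℓ (ρ g x) < c'}) ≤ 1 / 16 := by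
      refine (core_mass_mono hq ?_).trans (hqc' (ρ g x) (h.inv g x hxQ))
      intro f _ hf
      rw [← hmul]
      exact (hψ _ hf).le
    linarith
  · intro g hg e he
    refine ⟨w e, hwV e he, fun hcon => ?_⟩
    have h3 := hψ _ hcon
    rw [hmul] at h3
    exact absurd (hℓC (some e) (by simpa using he) (ρ g x) ⟨h.inv g x hxQ, h3.le⟩)
      (not_le.mpr hg)
  · intro β hβ
    obtain ⟨m₀, hm₀Q, hm₀⟩ := h.compact.exists_isMinOn h.nonempty ℓ.continuous.continuousOn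
    have hm₀' : ∀ m ∈ Q, ℓ m₀ ≤ ℓ m := fun m hm => hm₀ hm
    obtain ⟨V₂, p, hp, hpc⟩ := conc h ℓ (a := ℓ m₀) (c := c') (β := β) hm₀Q hm₀' rfl
      (lt_of_le_of_lt (hm₀' x hxQ) hℓx) hβ
    refine ⟨V₂, p, hp, fun g => ?_⟩
    rw [core_mass_not hp]
    have h3 : mass V₂ p (fun f => ¬ f⁻¹ * g ∈ {g | ℓ (ρ g x) < c'}) ≤ β := by
      refine (core_mass_mono hp ?_).trans (hpc (ρ g x) (h.inv g x hxQ))
      intro f _ hf
      rw [← hmul]
      exact not_lt.mp hf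
    linarith

end Pool.Agent.STC
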