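import Mathlib
import Pool.Agent.Helper96.RecurrenceDefs

/-!
# STC: definitions (MP_290264_an, StableConjecture)

For every countable non-amenable group `G` the group of locally constant functions from the Cantor
set to `G` contains a set of measurable recurrence which is not a set of topological recurrence.
Overview: /team-store/stc_blueprint.md
-/

set_option autoImplicit false

namespace Pool.Agent.STC

open scoped Classical in
/-- The mass which the weights `p` on the finite set `V` give to the property `T`. -/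
noncomputable def mass {G : Type*} (V : Finset G) (p : G → ℝ) (T : G → Prop) : ℝ :=
  ∑ f ∈ V.filter T, p f

/-- The weights `p` form a probability on the finite set `V`. -/
structure IsPr {G : Type*} (V : Finset G) (p : G → ℝ) : Prop where
  nonneg : ∀ f ∈ V, 0 ≤ p f
  sum_one : ∑ f ∈ V, p f = 1

/-- `Q` is a minimal non-empty compact convex `ρ`-invariant set. -/
structure IsMin {G E : Type*} [Group G] [AddCommGroup E] [Module ℝ E] [TopologicalSpace E]
    (ρ : G →* (E →L[ℝ] E)) (Q : Set E) : Prop where
  compact : IsCompact Q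
  convex : Convex ℝ Q
  nonempty : Q.Nonempty
  inv : ∀ g : G, ∀ m ∈ Q, ρ g m ∈ Q
  min : ∀ Q' : Set E, Q' ⊆ Q → IsCompact Q' → Convex ℝ Q' → Q'.Nonempty →
    (∀ g : G, ∀ m ∈ Q', ρ g m ∈ Q') → Q' = Q

open scoped Classical in
/-- The sets of part A: `A ⊆ G`, a map `u` from the finite set `Fin k → Bool` to `G` such that
(1) `(u b)⁻¹ g ∈ A` for at most a quarter of the `b`, for every `g`;
(2) for `g ∈ A` and every `b` some `b'` has `(u b)⁻¹ (u b') g ∉ A`;
(3) for every `β > 0` some finitely supported probability `p` has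
`p {f | f⁻¹ g ∈ A} ≥ 1 - β` for every `g`. -/
structure Good {G : Type*} [Group G] (A : Set G) (k : ℕ) (u : (Fin k → Bool) → G) : Prop where
  rare : ∀ g : G, ((Finset.univ.filter fun b => (u b)⁻¹ * g ∈ A).card : ℝ) ≤ 1 / 4 * 2 ^ k
  out : ∀ g ∈ A, ∀ b, ∃ b', (u b)⁻¹ * u b' * g ∉ A
  dense : ∀ β : ℝ, 0 < β → ∃ (V : Finset G) (p : G → ℝ), IsPr V p ∧
    ∀ g : G, 1 - β ≤ mass V p (fun f => f⁻¹ * g ∈ A)

end Pool.Agent.STC
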