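import Pool.Agent.STC.Env
import Pool.Agent.STC.Avg

/-!
# STC B3, B4: out-degree and in-degree

`N = 2^k = card D`, `D = Fin k → Bool`, `θ = thr k = 1 - 1/(4N) ≥ 3/4`. In both proofs one may
assume `0 < t`, and applies `avg`.

* `outdeg`: `ζ j = ξ (w j)`, `B ω = {b | (u b)⁻¹ * ev ω y ∈ A}` has at most `N/4` elements
  (`Good.rare`), `X_j = {ω | ev ω ((e (w j))⁻¹ * y) ∈ A}`, `a = 1/4`: `t θ ≤ t (1/4 + N/√t)`, so
  `√t ≤ 2N`.
* `indeg`: `ζ j = ξ (v j)`, `X_j = {ω | ev ω s ∈ A ∧ ev ω ((e w)⁻¹ * e (v j) * s) ∈ A}`, which has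
  probability at least `2θ - 1 = 1 - 1/(2N)`; `B ω = {b' | (u (ξ w ω))⁻¹ * u b' * ev ω s ∈ A}` if
  `ev ω s ∈ A` and `∅` otherwise; by `Good.out` it has at most `N - 1` elements, `a = 1 - 1/N`:
  `1 - 1/(2N) ≤ 1 - 1/N + N/√t`, so `√t ≤ 2N²`.

The joint law of the `ζ j` follows from `Env.law` for the image of the (injective) index map.
-/

set_option autoImplicit false

namespace Pool.Agent.STC

open MeasureTheory

variable {G : Type*} [Group G] {A : Set G} {k : ℕ} {u : (Fin k → Bool) → G} {𝔾 Ω : Type*}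
  [Group 𝔾] [MeasurableSpace Ω]

theorem Env.law_inj (E : Env k u 𝔾 Ω) {t : ℕ} (w : Fin t → ℕ) (hw : Function.Injective w)
    (z : Fin t → Fin k → Bool) :
    E.P.real {ω | ∀ j, E.ξ (w j) ω = z j} = (1 / 2 ^ k) ^ t := by
  classical
  have h := E.law (Finset.univ.image w)
    (fun v => if h : ∃ j, w j = v then z h.choose else fun _ => false)
  rw [Finset.card_image_of_injective _ hw, Finset.card_univ, Fintype.card_fin] at h
  rw [← h]
  congr 1
  ext ω
  simp only [Set.mem_ofPred_eq, Finset.mem_image, Finset.mem_univ, true_and,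
    forall_exists_index, forall_apply_eq_imp_iff]
  refine forall_congr' fun j => ?_
  have hex : ∃ i, w i = w j := ⟨j, rfl⟩
  have hch : hex.choose = j := hw hex.choose_spec
  rw [dif_pos hex, hch]

theorem card_letters (k : ℕ) : (Fintype.card (Fin k → Bool) : ℝ) = 2 ^ k := by
  rw [Fintype.card_fun, Fintype.card_bool, Fintype.card_fin]
  push_cast
  rfl

theorem thr_ge (k : ℕ) : 3 / 4 ≤ thr k := by
  unfold thr
  have h1 : (1 : ℝ) ≤ 2 ^ k := one_le_pow₀ (by norm_num)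
  have h2 : 1 / (4 * 2 ^ k : ℝ) ≤ 1 / 4 := one_div_le_one_div_of_le (by norm_num) (by linarith)
  linarith

theorem le_of_sqrt_le {t k : ℕ} (h : Real.sqrt t ≤ 2 * (2 ^ k) ^ 2) : t ≤ 4 * (2 ^ k) ^ 4 := by
  have h1 : (t : ℝ) ≤ (2 * (2 ^ k) ^ 2) ^ 2 := (Real.sqrt_le_left (by positivity)).1 h
  have h2 : ((2 : ℝ) * (2 ^ k) ^ 2) ^ 2 = ((4 * (2 ^ k) ^ 4 : ℕ) : ℝ) := by
    push_cast
    ring
  rw [h2] at h1
  exact_mod_cast h1

theorem outdeg (E : Env k u 𝔾 Ω) (hg : Good A k u) (y : 𝔾) {t : ℕ} (w : Fin t → ℕ)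
    (hw : Function.Injective w) (h : ∀ j, (E.e (w j))⁻¹ * y ∈ E.S A) : t ≤ 4 * (2 ^ k) ^ 4 := by
  classical
  rcases Nat.eq_zero_or_pos t with ht | ht
  · subst ht
    exact Nat.zero_le _
  have := E.prob
  have hav := avg E.P ht (fun j ω => E.ξ (w j) ω) (fun j b => E.meas_ξ (w j) b)
    (fun z => by rw [card_letters]; exact E.law_inj w hw z)
    (fun ω => Finset.univ.filter fun b => (u b)⁻¹ * E.ev ω y ∈ A) (a := 1 / 4)
    (fun ω => by
      rw [card_letters]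
      convert hg.rare (E.ev ω y))
    (fun j => {ω | E.ev ω ((E.e (w j))⁻¹ * y) ∈ A}) (fun j => E.meas _ A)
    (fun j ω hω => by
      rw [Finset.mem_filter]
      refine ⟨Finset.mem_univ _, ?_⟩
      have h1 : E.ev ω ((E.e (w j))⁻¹ * y) ∈ A := hω
      rwa [map_mul, map_inv, E.ev_e] at h1)
  have hlow : (t : ℝ) * (3 / 4) ≤ ∑ j : Fin t, E.P.real {ω | E.ev ω ((E.e (w j))⁻¹ * y) ∈ A} := by
    have : (t : ℝ) * (3 / 4) = ∑ _j : Fin t, (3 / 4 : ℝ) := by
      rw [Finset.sum_const, Finset.card_univ, Fintype.card_fin, nsmul_eq_mul]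
    rw [this]
    exact Finset.sum_le_sum fun j _ => (thr_ge k).trans (h j)
  have htr : (0 : ℝ) < t := by exact_mod_cast ht
  have hst : 0 < Real.sqrt t := Real.sqrt_pos.2 htr
  have h1 : (3 / 4 : ℝ) ≤ 1 / 4 + 2 ^ k / Real.sqrt t := by
    rw [card_letters] at hav
    exact le_of_mul_le_mul_left (hlow.trans hav) htr
  have h2 : (1 / 2 : ℝ) ≤ 2 ^ k / Real.sqrt t := by linarith
  rw [le_div_iff₀ hst] at h2
  have h3 : (1 : ℝ) ≤ 2 ^ k := one_le_pow₀ (by norm_num)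
  refine le_of_sqrt_le ?_
  nlinarith

theorem indeg (E : Env k u 𝔾 Ω) (hg : Good A k u) {s : 𝔾} (hs : s ∈ E.S A) (w : ℕ) {t : ℕ}
    (v : Fin t → ℕ) (hv : Function.Injective v)
    (h : ∀ j, (E.e w)⁻¹ * E.e (v j) * s ∈ E.S A) : t ≤ 4 * (2 ^ k) ^ 4 := by
  classical
  rcases Nat.eq_zero_or_pos t with ht | ht
  · subst ht
    exact Nat.zero_le _
  have := E.prob
  have h3 : (1 : ℝ) ≤ 2 ^ k := one_le_pow₀ (by norm_num)
  have h30 : (0 : ℝ) < 2 ^ k := by linarith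
  have hav := avg E.P ht (fun j ω => E.ξ (v j) ω) (fun j b => E.meas_ξ (v j) b)
    (fun z => by rw [card_letters]; exact E.law_inj v hv z)
    (fun ω => if E.ev ω s ∈ A then Finset.univ.filter fun b' =>
      (u (E.ξ w ω))⁻¹ * u b' * E.ev ω s ∈ A else ∅) (a := 1 - 1 / 2 ^ k)
    (fun ω => by
      rw [card_letters]
      have h4 : (1 - 1 / 2 ^ k : ℝ) * 2 ^ k = 2 ^ k - 1 := by
        field_simp
      rw [h4]
      split_ifs with hA
      · obtain ⟨b', hb'⟩ := hg.out _ hA (E.ξ w ω)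
        have h5 : (Finset.univ.filter fun b' => (u (E.ξ w ω))⁻¹ * u b' * E.ev ω s ∈ A).card
            < Fintype.card (Fin k → Bool) := by
          rw [← Finset.card_univ]
          refine Finset.card_lt_card ?_
          rw [Finset.ssubset_iff_of_subset (Finset.filter_subset _ _)]
          refine ⟨b', Finset.mem_univ _, fun h6 => ?_⟩
          exact hb' (Finset.mem_filter.1 h6).2
        have h6 : ((Finset.univ.filter fun b' =>
            (u (E.ξ w ω))⁻¹ * u b' * E.ev ω s ∈ A).card : ℝ) + 1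
            ≤ (Fintype.card (Fin k → Bool) : ℝ) := by exact_mod_cast h5
        rw [card_letters] at h6
        linarith
      · rw [Finset.card_empty, Nat.cast_zero]
        linarith)
    (fun j => {ω | E.ev ω s ∈ A} ∩ {ω | E.ev ω ((E.e w)⁻¹ * E.e (v j) * s) ∈ A})
    (fun j => (E.meas _ A).inter (E.meas _ A))
    (fun j ω hω => by
      obtain ⟨h1, h2⟩ := hω
      have h1' : E.ev ω s ∈ A := h1
      have h2' : E.ev ω ((E.e w)⁻¹ * E.e (v j) * s) ∈ A := h2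
      rw [if_pos h1', Finset.mem_filter]
      refine ⟨Finset.mem_univ _, ?_⟩
      rwa [map_mul, map_mul, map_inv, E.ev_e, E.ev_e] at h2')
  have hlow : (t : ℝ) * (2 * thr k - 1) ≤ ∑ j : Fin t,
      E.P.real ({ω | E.ev ω s ∈ A} ∩ {ω | E.ev ω ((E.e w)⁻¹ * E.e (v j) * s) ∈ A}) := by
    have : (t : ℝ) * (2 * thr k - 1) = ∑ _j : Fin t, (2 * thr k - 1) := by
      rw [Finset.sum_const, Finset.card_univ, Fintype.card_fin, nsmul_eq_mul]
    rw [this]
    refine Finset.sum_le_sum fun j _ => ?_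
    have e1 : thr k ≤ E.P.real {ω | E.ev ω s ∈ A} := hs
    have e2 : thr k ≤ E.P.real {ω | E.ev ω ((E.e w)⁻¹ * E.e (v j) * s) ∈ A} := h j
    have e3 := measureReal_union_add_inter (μ := E.P) (s := {ω | E.ev ω s ∈ A})
      (t := {ω | E.ev ω ((E.e w)⁻¹ * E.e (v j) * s) ∈ A}) (E.meas _ A)
    have e4 : E.P.real ({ω | E.ev ω s ∈ A} ∪ {ω | E.ev ω ((E.e w)⁻¹ * E.e (v j) * s) ∈ A}) ≤ 1 :=
      measureReal_le_one
    linarith
  have htr : (0 : ℝ) < t := by exact_mod_cast ht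
  have hst : 0 < Real.sqrt t := Real.sqrt_pos.2 htr
  have h1 : 2 * thr k - 1 ≤ 1 - 1 / 2 ^ k + 2 ^ k / Real.sqrt t := by
    rw [card_letters] at hav
    exact le_of_mul_le_mul_left (hlow.trans hav) htr
  have h2 : 1 / (2 * 2 ^ k : ℝ) ≤ 2 ^ k / Real.sqrt t := by
    unfold thr at h1
    have e1 : (1 : ℝ) / (4 * 2 ^ k) = (1 / 2 ^ k) / 4 := by ring
    have e2 : (1 : ℝ) / (2 * 2 ^ k) = (1 / 2 ^ k) / 2 := by ring
    rw [e1] at h1
    rw [e2]
    linarith
  rw [div_le_div_iff₀ (by positivity) hst, one_mul] at h2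
  refine le_of_sqrt_le (h2.trans (le_of_eq ?_))
  ring

end Pool.Agent.STC
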