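import Pool.Agent.STC.Defs

/-!
# STC A10: dyadic approximation of a finitely supported probability

Choose `k` with `1 ≤ 2^k q e` for all `e ∈ V` and `|V| ≤ 2^k/8`. Put `n e = ⌊2^k q e⌋ ≥ 1` and add the
remainder `2^k - ∑ n e`, which lies in `[0, |V|)`, to `n e₀` for one `e₀ ∈ V`. So `∑ n e = 2^k` and
`∑_{e ∈ T} n e ≤ 2^k (q(T) + 1/8)` for every `T`. As `Fintype.card (Fin k → Bool) = 2^k`, there is a
map `u : (Fin k → Bool) → V` with fibres of sizes `n e`: compose an equivalence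
`(Fin k → Bool) ≃ (Σ e : V, Fin (n e))` (equal cardinalities) with the first projection.
-/

set_option autoImplicit false

namespace Pool.Agent.STC

open scoped Classical in
private theorem fibres {G : Type*} (V : Finset G) (n : G → ℕ) (k : ℕ)
    (hn : ∑ e ∈ V, n e = 2 ^ k) (hn1 : ∀ e ∈ V, 1 ≤ n e) :
    ∃ u : (Fin k → Bool) → G, (∀ b, u b ∈ V) ∧ (∀ e ∈ V, ∃ b, u b = e) ∧
      ∀ T : G → Prop, (Finset.univ.filter fun b => T (u b)).card
        = ∑ e ∈ V, if T e then n e else 0 := by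
  have hcard : Fintype.card (Fin k → Bool) = Fintype.card (Σ e : V, Fin (n e)) := by
    rw [Fintype.card_sigma]
    simp only [Fintype.card_pi, Fintype.card_bool, Finset.prod_const, Finset.card_univ,
      Fintype.card_fin]
    rw [Finset.sum_coe_sort V n, hn]
  let φ := Fintype.equivOfCardEq hcard
  refine ⟨fun b => (φ b).1, fun b => (φ b).1.2, fun e he => ?_, fun T => ?_⟩
  · refine ⟨φ.symm ⟨⟨e, he⟩, ⟨0, hn1 e he⟩⟩, ?_⟩
    simp only [Equiv.apply_symm_apply]
  · rw [Finset.card_filter, Equiv.sum_comp φ (fun x => if T (x.1 : G) then 1 else 0),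
      Fintype.sum_sigma]
    rw [← Finset.sum_coe_sort V (fun e => if T e then n e else 0)]
    refine Finset.sum_congr rfl fun e _ => ?_
    by_cases h : T e
    · simp [h]
    · simp [h]

open scoped Classical in
theorem dyadic {G : Type*} {V : Finset G} {q : G → ℝ} (hq : IsPr V q) (hpos : ∀ e ∈ V, 0 < q e) :
    ∃ (k : ℕ) (u : (Fin k → Bool) → G), (∀ b, u b ∈ V) ∧ (∀ e ∈ V, ∃ b, u b = e) ∧
      ∀ T : G → Prop, ((Finset.univ.filter fun b => T (u b)).card : ℝ)
        ≤ (mass V q T + 1 / 8) * 2 ^ k := by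
  have hV : V.Nonempty := by
    rw [Finset.nonempty_iff_ne_empty]
    intro h
    have h1 := hq.sum_one
    rw [h, Finset.sum_empty] at h1
    exact zero_ne_one h1
  obtain ⟨e₀, he₀⟩ := hV
  -- the smallest weight
  obtain ⟨k, hk⟩ : ∃ k : ℕ, (∀ e ∈ V, 1 ≤ (2 : ℝ) ^ k * q e) ∧ 8 * (V.card : ℝ) ≤ 2 ^ k := by
    have h1 : ∀ e ∈ V, ∃ k : ℕ, ∀ j : ℕ, k ≤ j → 1 ≤ (2 : ℝ) ^ j * q e := by
      intro e he
      have hp := hpos e he
      obtain ⟨k, hk⟩ := pow_unbounded_of_one_lt (1 / q e) (by norm_num : (1 : ℝ) < 2)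
      refine ⟨k, fun j hj => ?_⟩
      have h2 : (2 : ℝ) ^ k ≤ 2 ^ j := pow_le_pow_right₀ (by norm_num) hj
      rw [div_lt_iff₀ hp] at hk
      nlinarith
    choose! f hf using h1
    obtain ⟨k₀, hk₀⟩ := pow_unbounded_of_one_lt (8 * (V.card : ℝ)) (by norm_num : (1 : ℝ) < 2)
    refine ⟨k₀ + ∑ e ∈ V, f e, fun e he => hf e he _ ?_, ?_⟩
    · have := Finset.single_le_sum (f := f) (fun i _ => Nat.zero_le _) he
      omega
    · refine hk₀.le.trans (pow_le_pow_right₀ (by norm_num) (by omega))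
  obtain ⟨hk1, hk2⟩ := hk
  set n : G → ℕ := fun e => ⌊(2 : ℝ) ^ k * q e⌋₊ with hn
  have hn1 : ∀ e ∈ V, 1 ≤ n e := by
    intro e he
    rw [hn]
    exact Nat.le_floor (by exact_mod_cast hk1 e he)
  have hnle : ∀ e ∈ V, (n e : ℝ) ≤ 2 ^ k * q e := by
    intro e he
    have := hpos e he
    exact Nat.floor_le (by positivity)
  have hnlt : ∀ e ∈ V, (2 : ℝ) ^ k * q e - 1 ≤ n e := by
    intro e he
    have := Nat.lt_floor_add_one ((2 : ℝ) ^ k * q e)
    rw [hn]
    linarith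
  have hs1 : (∑ e ∈ V, (n e : ℝ)) ≤ 2 ^ k := by
    calc (∑ e ∈ V, (n e : ℝ)) ≤ ∑ e ∈ V, 2 ^ k * q e := Finset.sum_le_sum hnle
      _ = 2 ^ k := by rw [← Finset.mul_sum, hq.sum_one, mul_one]
  have hs2 : (2 : ℝ) ^ k - V.card ≤ ∑ e ∈ V, (n e : ℝ) := by
    calc (2 : ℝ) ^ k - V.card = ∑ e ∈ V, (2 ^ k * q e - 1) := by
          rw [Finset.sum_sub_distrib, ← Finset.mul_sum, hq.sum_one, mul_one]
          simp
      _ ≤ _ := Finset.sum_le_sum hnlt
  have hs1' : ∑ e ∈ V, n e ≤ 2 ^ k := by exact_mod_cast hs1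
  set r : ℕ := 2 ^ k - ∑ e ∈ V, n e with hr
  have hrR : (r : ℝ) ≤ V.card := by
    rw [hr, Nat.cast_sub hs1']
    push_cast
    linarith
  set n' : G → ℕ := fun e => n e + if e = e₀ then r else 0 with hn'
  have hsum' : ∑ e ∈ V, n' e = 2 ^ k := by
    rw [hn']
    simp only [Finset.sum_add_distrib]
    rw [Finset.sum_ite_eq' V e₀ (fun _ => r), if_pos he₀]
    omega
  obtain ⟨u, hu1, hu2, hu3⟩ := fibres V n' k hsum' (fun e he => (hn1 e he).trans (by
    rw [hn']
    exact Nat.le_add_right _ _))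
  refine ⟨k, u, hu1, hu2, fun T => ?_⟩
  rw [hu3 T]
  have h1 : ((∑ e ∈ V, if T e then n' e else 0 : ℕ) : ℝ) ≤
      (∑ e ∈ V, if T e then 2 ^ k * q e else 0) + r := by
    have h2 : ∀ e ∈ V, (((if T e then n' e else 0 : ℕ)) : ℝ) ≤
        (if T e then 2 ^ k * q e else 0) + if e = e₀ then (r : ℝ) else 0 := by
      intro e he
      have h3 := hnle e he
      have h5 : (0 : ℝ) ≤ r := Nat.cast_nonneg r
      by_cases hT : T e
      · rw [if_pos hT, if_pos hT, hn']
        by_cases h4 : e = e₀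
        · simp only [if_pos h4]
          push_cast
          linarith
        · simp only [if_neg h4]
          push_cast
          linarith
      · rw [if_neg hT, if_neg hT]
        push_cast
        by_cases h4 : e = e₀
        · rw [if_pos h4]; linarith
        · rw [if_neg h4]; linarith
    push_cast
    have h6 := Finset.sum_le_sum h2
    rw [Finset.sum_add_distrib, Finset.sum_ite_eq' V e₀ (fun _ => (r : ℝ)), if_pos he₀] at h6
    push_cast at h6
    exact h6
  have h7 : (∑ e ∈ V, if T e then (2 : ℝ) ^ k * q e else 0) = 2 ^ k * mass V q T := by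
    unfold mass
    rw [← Finset.sum_filter, Finset.mul_sum]
  rw [h7] at h1
  have h8 : (r : ℝ) ≤ 1 / 8 * 2 ^ k := by linarith
  linarith

end Pool.Agent.STC
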