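import Mathlib

/-!
# STC B1: the empirical distribution

* `card_le_dev`: `#{j | z j ∈ B} / t = ∑_{b ∈ B} #{j | z j = b} / t ≤ ∑_{b ∈ B} (1/N + |...|)`.
* `sum_dev`: for fixed `b` put `x_j z = (if z j = b then 1 else 0) - 1/N`. Then
  `∑_z x_i z * x_j z = 0` for `i ≠ j` and `∑_z (x_j z)² = N^t (1/N)(1 - 1/N) ≤ N^t`, so
  `∑_z (∑_j x_j z)² ≤ t N^t`, and by Cauchy-Schwarz `∑_z |∑_j x_j z| ≤ √(N^t) √(t N^t) = N^t √t`.
  Divide by `t` and sum over the `N` letters `b`.
-/

set_option autoImplicit false

namespace Pool.Agent.STC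

variable {D : Type*} [Fintype D] [DecidableEq D]

/-- Deviation of the empirical distribution of the word `z` from the uniform distribution. -/
noncomputable def dev {t : ℕ} (z : Fin t → D) : ℝ :=
  ∑ b : D, |((Finset.univ.filter fun j => z j = b).card : ℝ) / t - 1 / Fintype.card D|

theorem card_le_dev {t : ℕ} (ht : 0 < t) (z : Fin t → D) (B : Finset D) :
    ((Finset.univ.filter fun j => z j ∈ B).card : ℝ)
      ≤ t * ((B.card : ℝ) / Fintype.card D + dev z) := by
  have ht0 : (0 : ℝ) < t := by exact_mod_cast ht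
  have h1 : (Finset.univ.filter fun j => z j ∈ B).card =
      ∑ b ∈ B, (Finset.univ.filter fun j => z j = b).card := by
    rw [Finset.card_eq_sum_card_fiberwise (f := z) (t := B) (fun j hj => by
      have := (Finset.mem_filter.mp (Finset.mem_coe.mp hj)).2
      exact Finset.mem_coe.mpr this)]
    refine Finset.sum_congr rfl fun b hb => ?_
    congr 1
    ext j
    simp only [Finset.mem_filter, Finset.mem_univ, true_and]
    constructor
    · exact fun h => h.2
    · exact fun h => ⟨h ▸ hb, h⟩
  rw [h1]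
  push_cast
  have h2 : ∀ b ∈ B, ((Finset.univ.filter fun j => z j = b).card : ℝ) ≤
      t * (1 / Fintype.card D +
        |((Finset.univ.filter fun j => z j = b).card : ℝ) / t - 1 / Fintype.card D|) := by
    intro b _
    have h3 := le_abs_self (((Finset.univ.filter fun j => z j = b).card : ℝ) / t -
      1 / Fintype.card D)
    have h4 : ((Finset.univ.filter fun j => z j = b).card : ℝ) =
        t * (((Finset.univ.filter fun j => z j = b).card : ℝ) / t) := by field_simp
    calc ((Finset.univ.filter fun j => z j = b).card : ℝ) =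
        t * (((Finset.univ.filter fun j => z j = b).card : ℝ) / t) := h4
      _ ≤ _ := mul_le_mul_of_nonneg_left (by linarith) ht0.le
  refine (Finset.sum_le_sum h2).trans ?_
  rw [← Finset.mul_sum, Finset.sum_add_distrib, Finset.sum_const, nsmul_eq_mul]
  refine mul_le_mul_of_nonneg_left ?_ ht0.le
  have h5 : ∑ b ∈ B, |((Finset.univ.filter fun j => z j = b).card : ℝ) / t -
      1 / Fintype.card D| ≤ dev z := by
    unfold dev
    exact Finset.sum_le_sum_of_subset_of_nonneg (Finset.subset_univ B) fun _ _ _ => abs_nonneg _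
  have h6 : (B.card : ℝ) * (1 / Fintype.card D) = B.card / Fintype.card D := by ring
  rw [h6]
  linarith

private theorem second_moment (y : D → ℝ) (hy : ∑ d, y d = 0) (hy1 : ∀ d, |y d| ≤ 1) (t : ℕ) :
    ∑ z : Fin t → D, (∑ j, y (z j)) ^ 2 ≤ t * (Fintype.card D : ℝ) ^ t := by
  induction t with
  | zero => simp
  | succ t ih =>
    have h1 : ∑ z : Fin (t + 1) → D, (∑ j, y (z j)) ^ 2 =
        ∑ d : D, ∑ z : Fin t → D, (y d + ∑ j, y (z j)) ^ 2 := by
      rw [← (Fin.consEquiv (fun _ => D)).sum_comp, Fintype.sum_prod_type]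
      refine Finset.sum_congr rfl fun d _ => Finset.sum_congr rfl fun z _ => ?_
      rw [Fin.sum_univ_succ]
      rfl
    have h2 : ∀ d : D, ∑ z : Fin t → D, (y d + ∑ j, y (z j)) ^ 2 =
        (Fintype.card D : ℝ) ^ t * y d ^ 2 + 2 * y d * ∑ z : Fin t → D, ∑ j, y (z j) +
          ∑ z : Fin t → D, (∑ j, y (z j)) ^ 2 := by
      intro d
      have h3 : ∀ z : Fin t → D, (y d + ∑ j, y (z j)) ^ 2 =
          y d ^ 2 + 2 * y d * (∑ j, y (z j)) + (∑ j, y (z j)) ^ 2 := fun z => by ring
      rw [Finset.sum_congr rfl fun z _ => h3 z, Finset.sum_add_distrib, Finset.sum_add_distrib,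
        Finset.sum_const, nsmul_eq_mul, Finset.card_univ, Fintype.card_fun, Fintype.card_fin,
        ← Finset.mul_sum]
      push_cast
      ring
    rw [h1, Finset.sum_congr rfl fun d _ => h2 d, Finset.sum_add_distrib, Finset.sum_add_distrib,
      ← Finset.mul_sum, ← Finset.sum_mul, ← Finset.mul_sum, hy, mul_zero, zero_mul, add_zero,
      Finset.sum_const, nsmul_eq_mul, Finset.card_univ]
    have h4 : ∑ d : D, y d ^ 2 ≤ Fintype.card D := by
      refine (Finset.sum_le_card_nsmul _ _ 1 fun d _ => ?_).trans ?_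
      · rw [sq_le_one_iff_abs_le_one]; exact hy1 d
      · rw [nsmul_eq_mul, mul_one, Finset.card_univ]
    have h5 : (Fintype.card D : ℝ) ^ t * ∑ d : D, y d ^ 2 ≤
        (Fintype.card D : ℝ) ^ t * Fintype.card D :=
      mul_le_mul_of_nonneg_left h4 (by positivity)
    have h6 : (Fintype.card D : ℝ) * ∑ z : Fin t → D, (∑ j, y (z j)) ^ 2 ≤
        Fintype.card D * (t * (Fintype.card D : ℝ) ^ t) :=
      mul_le_mul_of_nonneg_left ih (by positivity)
    push_cast
    rw [pow_succ]
    linarith

theorem sum_dev (D : Type*) [Fintype D] [DecidableEq D] {t : ℕ} (ht : 0 < t) :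
    ∑ z : Fin t → D, dev z
      ≤ (Fintype.card D : ℝ) ^ t * ((Fintype.card D : ℝ) / Real.sqrt t) := by
  have ht0 : (0 : ℝ) < t := by exact_mod_cast ht
  unfold dev
  rw [Finset.sum_comm]
  have key : ∀ b : D, ∑ z : Fin t → D,
      |((Finset.univ.filter fun j => z j = b).card : ℝ) / t - 1 / Fintype.card D| ≤
        (Fintype.card D : ℝ) ^ t / Real.sqrt t := by
    intro b
    have hN1 : (1 : ℝ) ≤ Fintype.card D := by
      have : 0 < Fintype.card D := Fintype.card_pos_iff.mpr ⟨b⟩
      exact_mod_cast this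
    have hN0 : (0 : ℝ) < Fintype.card D := by linarith
    set y : D → ℝ := fun d => (if d = b then 1 else 0) - 1 / Fintype.card D with hy
    have hy0 : ∑ d, y d = 0 := by
      rw [hy, Finset.sum_sub_distrib, Finset.sum_ite_eq', if_pos (Finset.mem_univ b),
        Finset.sum_const, nsmul_eq_mul, Finset.card_univ]
      field_simp
      ring
    have hinv : 0 < 1 / (Fintype.card D : ℝ) ∧ 1 / (Fintype.card D : ℝ) ≤ 1 :=
      ⟨by positivity, by rw [div_le_one hN0]; exact hN1⟩
    have hy1 : ∀ d, |y d| ≤ 1 := by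
      intro d
      rw [hy]
      simp only
      rw [abs_le]
      split_ifs
      · constructor <;> linarith [hinv.1, hinv.2]
      · constructor <;> linarith [hinv.1, hinv.2]
    have hS : ∀ z : Fin t → D,
        |((Finset.univ.filter fun j => z j = b).card : ℝ) / t - 1 / Fintype.card D| =
          |∑ j, y (z j)| / t := by
      intro z
      have h1 : ∑ j, y (z j) = ((Finset.univ.filter fun j => z j = b).card : ℝ) -
          t * (1 / Fintype.card D) := by
        rw [hy]
        simp only
        rw [Finset.sum_sub_distrib, Finset.sum_const, nsmul_eq_mul, Finset.card_univ,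
          Fintype.card_fin, Finset.card_filter]
        push_cast
        rfl
      rw [h1]
      have h2 : ((Finset.univ.filter fun j => z j = b).card : ℝ) / t - 1 / Fintype.card D =
          (((Finset.univ.filter fun j => z j = b).card : ℝ) - t * (1 / Fintype.card D)) / t := by
        field_simp
      rw [h2, abs_div, abs_of_pos ht0]
    rw [Finset.sum_congr rfl fun z _ => hS z, ← Finset.sum_div]
    have h3 : (∑ z : Fin t → D, |∑ j, y (z j)|) ^ 2 ≤
        (Fintype.card D : ℝ) ^ t * (t * (Fintype.card D : ℝ) ^ t) := by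
      have h4 := sq_sum_le_card_mul_sum_sq (s := (Finset.univ : Finset (Fin t → D)))
        (f := fun z => |∑ j, y (z j)|)
      simp only [sq_abs] at h4
      refine h4.trans ?_
      rw [Finset.card_univ, Fintype.card_fun, Fintype.card_fin]
      push_cast
      exact mul_le_mul_of_nonneg_left (second_moment y hy0 hy1 t) (by positivity)
    have h5 : (∑ z : Fin t → D, |∑ j, y (z j)|) ≤ (Fintype.card D : ℝ) ^ t * Real.sqrt t := by
      refine abs_le_of_sq_le_sq' ?_ (by positivity) |>.2
      rw [mul_pow, Real.sq_sqrt ht0.le]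
      linarith
    rw [div_le_div_iff₀ ht0 (Real.sqrt_pos.mpr ht0)]
    have h6 : Real.sqrt t * Real.sqrt t = t := Real.mul_self_sqrt ht0.le
    calc (∑ z : Fin t → D, |∑ j, y (z j)|) * Real.sqrt t ≤
        ((Fintype.card D : ℝ) ^ t * Real.sqrt t) * Real.sqrt t :=
          mul_le_mul_of_nonneg_right h5 (Real.sqrt_nonneg _)
      _ = _ := by rw [mul_assoc, h6]
  refine (Finset.sum_le_card_nsmul _ _ _ fun b _ => key b).trans ?_
  rw [nsmul_eq_mul, Finset.card_univ]
  apply le_of_eq
  ring

end Pool.Agent.STC
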