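import Pool.Agent.STC.Defs

/-!
# STC: random environments

The example to keep in mind (`Inst.lean`): `𝔾` = locally constant functions `(ℕ → Bool) → G`,
`Ω = ℕ → Bool` with the fair coin measure, `ev ω` = evaluation at `ω`, `ξ v ω` = the `v`-th block of
`k` letters of `ω`, `e v ω = u (ξ v ω)`.
-/

set_option autoImplicit false

namespace Pool.Agent.STC

open MeasureTheory

/-- A random environment. -/
structure Env {G : Type*} [Group G] (k : ℕ) (u : (Fin k → Bool) → G) (𝔾 Ω : Type*) [Group 𝔾]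
    [MeasurableSpace Ω] where
  P : Measure Ω
  prob : IsProbabilityMeasure P
  ev : Ω → 𝔾 →* G
  meas : ∀ (x : 𝔾) (B : Set G), MeasurableSet {ω | ev ω x ∈ B}
  cst : G → 𝔾
  ev_cst : ∀ ω g, ev ω (cst g) = g
  ξ : ℕ → Ω → (Fin k → Bool)
  meas_ξ : ∀ v b, MeasurableSet {ω | ξ v ω = b}
  e : ℕ → 𝔾
  ev_e : ∀ ω v, ev ω (e v) = u (ξ v ω)
  law : ∀ (s : Finset ℕ) (z : ℕ → Fin k → Bool),
    P.real {ω | ∀ v ∈ s, ξ v ω = z v} = (1 / 2 ^ k) ^ s.card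

/-- The threshold `1 - 1/(4N)`, `N = 2^k`. -/
noncomputable def thr (k : ℕ) : ℝ := 1 - 1 / (4 * 2 ^ k)

/-- The syndetic set: `x` with `P (x ∈ A) ≥ 1 - 1/(4N)`. -/
def Env.S {G : Type*} [Group G] {k : ℕ} {u : (Fin k → Bool) → G} {𝔾 Ω : Type*} [Group 𝔾]
    [MeasurableSpace Ω] (E : Env k u 𝔾 Ω) (A : Set G) : Set 𝔾 :=
  {x | thr k ≤ E.P.real {ω | E.ev ω x ∈ A}}

end Pool.Agent.STC
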