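import Pool.Agent.STC.Defs

/-!
# STC A9: the compact convex set of means

`E = (G → ℝ) → ℝ` with the product topology. `means G` is the set of all `m : E` which vanish at
unbounded functions and are additive, homogeneous, normalised and non-negative on bounded functions.
`act G g m = fun f => m (fun h => f (g * h))`.

* `act`: `act (g * g') m f = m (fun h => f (g * g' * h))` and
  `act g (act g' m) f = (act g' m) (fun h => f (g * h)) = m (fun h => f (g * (g' * h)))`. Continuity: every
  coordinate is a coordinate of `m` (`continuous_pi`, `continuous_apply`).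
* `isCompact_means`: closed (every condition is an intersection of conditions on finitely many
  coordinates) and contained in `Set.pi univ (fun f => Icc (-(C f)) (C f))` with `C f` a bound of `|f|`
  if `f` is bounded and `C f = 0` otherwise: `0 ≤ m (C f ± f) = C f ± m f`. Tychonoff
  (`isCompact_univ_pi`).
* `convex_means`: clear. `means_nonempty`: `m f = if IsBdd f then f 1 else 0`.
* `act_mem`: `f` is bounded iff `fun h => f (g * h)` is.
* `isAmenable_of_fixed`: `m` with `act g m = m` for all `g` satisfies `IsLeftInvariantMean m`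
  (use `g⁻¹`).
-/

set_option autoImplicit false

namespace Pool.Agent.STC

open Helper96.Recurrence

universe u

/-- The set of means, as a subset of `(G → ℝ) → ℝ`. -/
def means (G : Type u) : Set ((G → ℝ) → ℝ) :=
  {m | (∀ f, ¬ IsBdd f → m f = 0) ∧
    (∀ f f' : G → ℝ, IsBdd f → IsBdd f' → m (fun h => f h + f' h) = m f + m f') ∧
    (∀ (c : ℝ) (f : G → ℝ), IsBdd f → m (fun h => c * f h) = c * m f) ∧
    m (fun _ => 1) = 1 ∧ ∀ f : G → ℝ, IsBdd f → (∀ h, 0 ≤ f h) → 0 ≤ m f}

/-- The action of `G` on `(G → ℝ) → ℝ`. -/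
noncomputable def act (G : Type u) [Group G] : G →* (((G → ℝ) → ℝ) →L[ℝ] ((G → ℝ) → ℝ)) where
  toFun g :=
    { toFun := fun m f => m (fun h => f (g * h))
      map_add' := fun _ _ => rfl
      map_smul' := fun _ _ => rfl
      cont := continuous_pi fun f => continuous_apply (fun h => f (g * h)) }
  map_one' := by
    ext m f
    simp
  map_mul' := by
    intro g g'
    ext m f
    simp [mul_assoc]

theorem act_apply {G : Type u} [Group G] (g : G) (m : (G → ℝ) → ℝ) (f : G → ℝ) :
    act G g m f = m (fun h => f (g * h)) := rfl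

private theorem bdd_const {G : Type u} (c : ℝ) : IsBdd (fun _ : G => c) :=
  ⟨|c|, fun _ => le_rfl⟩

private theorem bdd_add {G : Type u} {f f' : G → ℝ} (hf : IsBdd f) (hf' : IsBdd f') :
    IsBdd (fun h => f h + f' h) := by
  obtain ⟨C, hC⟩ := hf
  obtain ⟨C', hC'⟩ := hf'
  exact ⟨C + C', fun g => (abs_add_le _ _).trans (add_le_add (hC g) (hC' g))⟩

private theorem bdd_mul {G : Type u} {f : G → ℝ} (c : ℝ) (hf : IsBdd f) :
    IsBdd (fun h => c * f h) := by
  obtain ⟨C, hC⟩ := hf
  refine ⟨|c| * C, fun g => ?_⟩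
  rw [abs_mul]
  exact mul_le_mul_of_nonneg_left (hC g) (abs_nonneg c)

private theorem bdd_shift {G : Type u} [Group G] {f : G → ℝ} (g : G) (hf : IsBdd f) :
    IsBdd (fun h => f (g * h)) := by
  obtain ⟨C, hC⟩ := hf
  exact ⟨C, fun h => hC _⟩

private theorem bdd_unshift {G : Type u} [Group G] {f : G → ℝ} (g : G)
    (hf : IsBdd (fun h => f (g * h))) : IsBdd f := by
  obtain ⟨C, hC⟩ := hf
  refine ⟨C, fun h => ?_⟩
  have := hC (g⁻¹ * h)
  simpa using this

theorem isCompact_means (G : Type u) : IsCompact (means G) := by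
  classical
  have hclosed : IsClosed (means G) := by
    have h1 : means G = (⋂ (f : G → ℝ) (_ : ¬ IsBdd f), {m : (G → ℝ) → ℝ | m f = 0}) ∩
        ((⋂ (f : G → ℝ) (f' : G → ℝ) (_ : IsBdd f) (_ : IsBdd f'),
          {m : (G → ℝ) → ℝ | m (fun h => f h + f' h) = m f + m f'}) ∩
        ((⋂ (c : ℝ) (f : G → ℝ) (_ : IsBdd f),
          {m : (G → ℝ) → ℝ | m (fun h => c * f h) = c * m f}) ∩
        ({m : (G → ℝ) → ℝ | m (fun _ => 1) = 1} ∩
        (⋂ (f : G → ℝ) (_ : IsBdd f) (_ : ∀ h, 0 ≤ f h), {m : (G → ℝ) → ℝ | 0 ≤ m f})))) := by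
      ext m
      simp only [means, Set.mem_setOf_eq, Set.mem_inter_iff, Set.mem_iInter]
    rw [h1]
    refine IsClosed.inter ?_ (IsClosed.inter ?_ (IsClosed.inter ?_ (IsClosed.inter ?_ ?_)))
    · exact isClosed_iInter fun f => isClosed_iInter fun _ =>
        isClosed_eq (continuous_apply f) continuous_const
    · exact isClosed_iInter fun f => isClosed_iInter fun f' => isClosed_iInter fun _ =>
        isClosed_iInter fun _ => isClosed_eq (continuous_apply _)
          ((continuous_apply f).add (continuous_apply f'))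
    · exact isClosed_iInter fun c => isClosed_iInter fun f => isClosed_iInter fun _ =>
        isClosed_eq (continuous_apply _) (continuous_const.mul (continuous_apply f))
    · exact isClosed_eq (continuous_apply _) continuous_const
    · exact isClosed_iInter fun f => isClosed_iInter fun _ => isClosed_iInter fun _ =>
        isClosed_le continuous_const (continuous_apply f)
  set C : (G → ℝ) → ℝ := fun f => if h : IsBdd f then h.choose else 0 with hC
  have hK : IsCompact (Set.pi Set.univ (fun f : G → ℝ => Set.Icc (-(C f)) (C f))) :=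
    isCompact_univ_pi fun f => isCompact_Icc
  refine hK.of_isClosed_subset hclosed ?_
  rintro m ⟨h0, hadd, hmul, hone, hnn⟩ f -
  by_cases hf : IsBdd f
  · have hCf : ∀ g, |f g| ≤ C f := by
      intro g
      rw [hC]
      simp only [dif_pos hf]
      exact hf.choose_spec g
    have hconst : m (fun _ => C f) = C f := by
      have := hmul (C f) (fun _ => 1) (bdd_const 1)
      simpa [hone] using this
    have h1 : m (fun h => C f + f h) = C f + m f := by
      rw [hadd (fun _ => C f) f (bdd_const _) hf, hconst]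
    have h2 : m (fun h => C f + (-1) * f h) = C f + (-1) * m f := by
      rw [hadd (fun _ => C f) (fun h => (-1) * f h) (bdd_const _) (bdd_mul (-1) hf), hconst,
        hmul (-1) f hf]
    have h3 : 0 ≤ C f + m f := by
      rw [← h1]
      exact hnn _ (bdd_add (bdd_const _) hf) (fun h => by
        have := (abs_le.1 (hCf h)).1
        linarith)
    have h4 : 0 ≤ C f + (-1) * m f := by
      rw [← h2]
      exact hnn _ (bdd_add (bdd_const _) (bdd_mul (-1) hf)) (fun h => by
        have := (abs_le.1 (hCf h)).2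
        linarith)
    exact ⟨by linarith, by linarith⟩
  · rw [h0 f hf]
    rw [hC]
    simp [hf]

theorem convex_means (G : Type u) : Convex ℝ (means G) := by
  rintro m ⟨h0, hadd, hmul, hone, hnn⟩ m' ⟨h0', hadd', hmul', hone', hnn'⟩ a b ha hb hab
  refine ⟨?_, ?_, ?_, ?_, ?_⟩
  · intro f hf
    simp [h0 f hf, h0' f hf]
  · intro f f' hf hf'
    simp only [Pi.add_apply, Pi.smul_apply, smul_eq_mul, hadd f f' hf hf', hadd' f f' hf hf']
    ring
  · intro c f hf
    simp only [Pi.add_apply, Pi.smul_apply, smul_eq_mul, hmul c f hf, hmul' c f hf]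
    ring
  · simp only [Pi.add_apply, Pi.smul_apply, smul_eq_mul, hone, hone']
    linarith
  · intro f hf hf0
    simp only [Pi.add_apply, Pi.smul_apply, smul_eq_mul]
    exact add_nonneg (mul_nonneg ha (hnn f hf hf0)) (mul_nonneg hb (hnn' f hf hf0))

theorem means_nonempty (G : Type u) [Group G] : (means G).Nonempty := by
  classical
  refine ⟨fun f => if IsBdd f then f 1 else 0, ?_, ?_, ?_, ?_, ?_⟩
  · intro f hf
    simp [hf]
  · intro f f' hf hf'
    simp [hf, hf', bdd_add hf hf']
  · intro c f hf
    simp [hf, bdd_mul c hf]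
  · simp [bdd_const]
  · intro f hf hf0
    simp [hf, hf0 1]

theorem act_mem {G : Type u} [Group G] (g : G) {m : (G → ℝ) → ℝ} (hm : m ∈ means G) :
    act G g m ∈ means G := by
  obtain ⟨h0, hadd, hmul, hone, hnn⟩ := hm
  refine ⟨?_, ?_, ?_, ?_, ?_⟩
  · intro f hf
    rw [act_apply]
    exact h0 _ (fun h => hf (bdd_unshift g h))
  · intro f f' hf hf'
    rw [act_apply, act_apply, act_apply]
    exact hadd _ _ (bdd_shift g hf) (bdd_shift g hf')
  · intro c f hf
    rw [act_apply, act_apply]
    exact hmul c _ (bdd_shift g hf)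
  · rw [act_apply]
    exact hone
  · intro f hf hf0
    rw [act_apply]
    exact hnn _ (bdd_shift g hf) (fun h => hf0 _)

theorem isAmenable_of_fixed {G : Type u} [Group G] {m : (G → ℝ) → ℝ} (hm : m ∈ means G)
    (hfix : ∀ g : G, act G g m = m) : IsAmenable G := by
  obtain ⟨h0, hadd, hmul, hone, hnn⟩ := hm
  refine ⟨m, ⟨hadd, hmul, hone, hnn, ?_⟩⟩
  intro g f hf
  have h1 := congrFun (hfix g⁻¹) f
  rw [act_apply] at h1
  exact h1

end Pool.Agent.STC
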