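import Pool.Agent.STC.Defs

/-!
# STC A1: existence of a minimal compact convex invariant set

Zorn's lemma (`zorn_superset_nonempty`) for the non-empty compact convex invariant subsets of `M`,
ordered by inclusion: the intersection of a chain is compact convex invariant, and non-empty by
compactness (`IsCompact.nonempty_sInter_of_directed_nonempty_isCompact_isClosed`, sets of the chain
are closed in the Hausdorff space `E`). Compare `exists_minimal_closed_invariant` in
`Pool/Agent/Helper96/RecurrenceShift.lean`, whose proof can be copied.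
-/

set_option autoImplicit false

namespace Pool.Agent.STC

theorem exists_isMin {G E : Type*} [Group G] [AddCommGroup E] [Module ℝ E] [TopologicalSpace E]
    [T2Space E] (ρ : G →* (E →L[ℝ] E)) (M : Set E) (hc : IsCompact M) (hM : Convex ℝ M)
    (hne : M.Nonempty) (hinv : ∀ g : G, ∀ m ∈ M, ρ g m ∈ M) : ∃ Q ⊆ M, IsMin ρ Q := by
  obtain ⟨Z, hZ₀, hZ⟩ := zorn_superset_nonempty
    {Z : Set E | IsCompact Z ∧ Convex ℝ Z ∧ Z.Nonempty ∧ ∀ (g : G), ∀ x ∈ Z, ρ g x ∈ Z} (by
      intro c hc' hchain hcne
      refine ⟨⋂₀ c, ⟨?_, ?_, ?_, ?_⟩, fun s hs => Set.sInter_subset_of_mem hs⟩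
      · obtain ⟨t, ht⟩ := hcne
        exact (hc' ht).1.of_isClosed_subset
          (isClosed_sInter fun t ht => (hc' ht).1.isClosed) (Set.sInter_subset_of_mem ht)
      · exact convex_sInter fun t ht => (hc' ht).2.1
      · have : Nonempty c := hcne.to_subtype
        refine IsCompact.nonempty_sInter_of_directed_nonempty_isCompact_isClosed
          (S := c) ?_ (fun t ht => (hc' ht).2.2.1) (fun t ht => (hc' ht).1)
          (fun t ht => (hc' ht).1.isClosed)
        intro s hs t ht
        rcases hchain.total hs ht with h | h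
        · exact ⟨s, hs, Set.Subset.rfl, h⟩
        · exact ⟨t, ht, h, Set.Subset.rfl⟩
      · intro g x hx t ht
        exact (hc' ht).2.2.2 g x (hx t ht)) M ⟨hc, hM, hne, hinv⟩
  refine ⟨Z, hZ₀, ⟨hZ.prop.1, hZ.prop.2.1, hZ.prop.2.2.1, hZ.prop.2.2.2, ?_⟩⟩
  intro W hW h1 h2 h3 h4
  exact Set.Subset.antisymm hW (hZ.le_of_le ⟨h1, h2, h3, h4⟩ hW)

end Pool.Agent.STC
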