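import Pool.Agent.STC.Core
import Pool.Agent.STC.Means
import Pool.Agent.STC.Dyadic

/-!
# STC: part A

`exists_isMin` for `means G`; a minimal set with a single point is a fixed point, so for a
non-amenable `G` it has two points `m ≠ m'`, which differ at some `f : G → ℝ`; take
`ψ = ContinuousLinearMap.proj f`. Then `core` and `dyadic`.
-/

set_option autoImplicit false

namespace Pool.Agent.STC

open Helper96.Recurrence

universe u

theorem partA (G : Type u) [Group G] (hG : ¬ IsAmenable G) :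
    ∃ (A : Set G) (k : ℕ) (u : (Fin k → Bool) → G), Good A k u := by
  classical
  obtain ⟨Q, hQM, hQ⟩ := exists_isMin (act G) (means G) (isCompact_means G) (convex_means G)
    (means_nonempty G) (fun g m hm => act_mem g hm)
  obtain ⟨m, hm⟩ := hQ.nonempty
  have h1 : ∃ m' ∈ Q, m' ≠ m := by
    by_contra hcon
    push Not at hcon
    exact hG (isAmenable_of_fixed (hQM hm) fun g => hcon _ (hQ.inv g m hm))
  obtain ⟨m', hm', hne⟩ := h1
  have h2 : ∃ f : G → ℝ, m' f ≠ m f := by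
    by_contra hcon
    push Not at hcon
    exact hne (funext hcon)
  obtain ⟨f, hf⟩ := h2
  have h3 : ∃ (ψ : ((G → ℝ) → ℝ) →L[ℝ] ℝ) (m₁ m₂ : (G → ℝ) → ℝ), m₁ ∈ Q ∧ m₂ ∈ Q ∧
      ψ m₁ < ψ m₂ := by
    rcases lt_or_gt_of_ne hf with h | h
    · exact ⟨ContinuousLinearMap.proj f, m', m, hm', hm, h⟩
    · exact ⟨ContinuousLinearMap.proj f, m, m', hm, hm', h⟩
  obtain ⟨ψ, m₁, m₂, hm1, hm2, h12⟩ := h3
  obtain ⟨A, V, q, hq, hpos, hrare, hout, hdense⟩ := core hQ ψ hm1 hm2 h12
  obtain ⟨k, u, huV, husurj, hT⟩ := dyadic hq hpos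
  refine ⟨A, k, u, ?_, ?_, hdense⟩
  · intro g
    refine (hT fun e => e⁻¹ * g ∈ A).trans ?_
    have h4 := hrare g
    have h5 : (0 : ℝ) ≤ 2 ^ k := by positivity
    nlinarith
  · intro g hg b
    obtain ⟨e, he, heg⟩ := hout g hg (u b) (huV b)
    obtain ⟨b', rfl⟩ := husurj e he
    exact ⟨b', heg⟩

end Pool.Agent.STC
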